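import Mathlib

-- part Pool.Agent.P.MP_05c0aa_nt.Den
section

/-! Upper Banach density of predicates on the natural numbers. -/

namespace Pool.Agent.P.MP_05c0aa_nt

open Finset

open Classical in
/-- indicator of a proposition -/
noncomputable def ind (p : Prop) : ℝ := if p then 1 else 0

lemma ind_pos {p : Prop} (h : p) : ind p = 1 := if_pos h

lemma ind_neg {p : Prop} (h : ¬ p) : ind p = 0 := if_neg h

lemma ind_nonneg (p : Prop) : 0 ≤ ind p := by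
  by_cases h : p <;> simp [ind, h]

lemma ind_mono {p q : Prop} (h : p → q) : ind p ≤ ind q := by
  by_cases hp : p
  · rw [ind_pos hp, ind_pos (h hp)]
  · rw [ind_neg hp]
    exact ind_nonneg q

/-- number of `j < L` with `φ (X + j)` -/
noncomputable def cnt (φ : ℕ → Prop) (X L : ℕ) : ℝ := ∑ j ∈ range L, ind (φ (X + j))

/-- restriction to an arithmetic progression -/
def ap (φ : ℕ → Prop) (M ρ : ℕ) : ℕ → Prop := fun m => φ (M * m + ρ)

/-- the upper Banach density is at most `d` -/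
def Up (φ : ℕ → Prop) (d : ℝ) : Prop := ∀ ε > 0, ∃ C : ℝ, ∀ X L, cnt φ X L ≤ (d + ε) * L + C

/-- the upper Banach density -/
noncomputable def bd (φ : ℕ → Prop) : ℝ := sInf {d | Up φ d}

variable {φ ψ : ℕ → Prop} {d : ℝ}

lemma cnt_nonneg (φ : ℕ → Prop) (X L : ℕ) : 0 ≤ cnt φ X L :=
  sum_nonneg fun _ _ => ind_nonneg _

lemma cnt_add (φ : ℕ → Prop) (X L L' : ℕ) :
    cnt φ X (L + L') = cnt φ X L + cnt φ (X + L) L' := by
  simp only [cnt, sum_range_add, add_assoc]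

lemma cnt_mono {X X' L : ℕ} (h : ∀ j < L, φ (X + j) → ψ (X' + j)) : cnt φ X L ≤ cnt ψ X' L :=
  sum_le_sum fun j hj => ind_mono (h j (mem_range.1 hj))

lemma cnt_true {X L : ℕ} (h : ∀ j < L, φ (X + j)) : cnt φ X L = L := by
  rw [cnt, sum_congr rfl fun j hj => ind_pos (h j (mem_range.1 hj))]
  simp

lemma cnt_le (φ : ℕ → Prop) (X L : ℕ) : cnt φ X L ≤ L := by
  rw [← cnt_true (φ := fun _ => True) (X := X) fun _ _ => trivial]
  exact cnt_mono fun _ _ _ => trivial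

lemma exists_of_cnt_pos {X L : ℕ} (h : 0 < cnt φ X L) : ∃ j < L, φ (X + j) := by
  by_contra hn
  push Not at hn
  rw [cnt, sum_eq_zero fun j hj => ind_neg (hn j (mem_range.1 hj))] at h
  exact lt_irrefl _ h

lemma cnt_blocks (φ : ℕ → Prop) (X Λ N : ℕ) :
    cnt φ X (Λ * N) = ∑ s ∈ range N, cnt φ (X + Λ * s) Λ := by
  induction N with
  | zero => simp [cnt]
  | succ N ih => rw [mul_add_one, cnt_add, ih, sum_range_succ]

lemma cnt_ap (φ : ℕ → Prop) (Q X L : ℕ) :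
    cnt φ (Q * X) (Q * L) = ∑ t ∈ range Q, cnt (ap φ Q t) X L := by
  rw [cnt_blocks]
  simp only [cnt, ap]
  rw [sum_comm]
  refine sum_congr rfl fun t _ => sum_congr rfl fun s _ => ?_
  rw [mul_add]

lemma cnt_sub_le (φ : ℕ → Prop) {X L X' L' : ℕ} (h1 : X ≤ X') (h2 : X' + L' ≤ X + L) :
    ∃ L1 L2 : ℕ, L1 + L' + L2 = L ∧
      cnt φ X L = cnt φ X L1 + cnt φ X' L' + cnt φ (X' + L') L2 := by
  obtain ⟨L1, rfl⟩ := Nat.exists_eq_add_of_le h1
  obtain ⟨L2, h3⟩ := Nat.exists_eq_add_of_le h2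
  obtain rfl : L = L1 + L' + L2 := by omega
  exact ⟨L1, L2, rfl, by rw [cnt_add, cnt_add, add_assoc X]⟩

lemma up_one (φ : ℕ → Prop) : Up φ 1 := fun ε hε => ⟨0, fun X L => by
  have := cnt_le φ X L
  have : (0 : ℝ) ≤ ε * L := by positivity
  linarith⟩

/-- a linear function with negative slope is eventually negative -/
lemma exists_neg {a : ℝ} (ha : 0 < a) (C : ℝ) : ∃ L₀ : ℕ, ∀ L : ℕ, L₀ ≤ L → C < a * L := by
  obtain ⟨L₀, h⟩ := exists_nat_gt (C / a)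
  refine ⟨L₀, fun L hL => ?_⟩
  rw [div_lt_iff₀' ha] at h
  have : (L₀ : ℝ) ≤ L := by exact_mod_cast hL
  nlinarith

lemma Up.nonneg (h : Up φ d) : 0 ≤ d := by
  by_contra hd
  obtain ⟨C, hC⟩ := h (-d / 2) (by linarith)
  obtain ⟨L, hL⟩ := exists_neg (a := -d / 2) (by linarith) C
  have := hL L le_rfl
  have := hC 0 L
  have := cnt_nonneg φ 0 L
  linarith

lemma Up.const (h : Up φ d) {ε : ℝ} (hε : 0 < ε) :
    ∃ C : ℝ, 0 ≤ C ∧ ∀ X L, cnt φ X L ≤ (d + ε) * L + C := by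
  obtain ⟨C, hC⟩ := h ε hε
  exact ⟨C, by simpa [cnt] using hC 0 0, hC⟩

lemma bd_le (h : Up φ d) : bd φ ≤ d := csInf_le ⟨0, fun _ h => Up.nonneg h⟩ h

lemma up_of_le (h : bd φ ≤ d) : Up φ d := by
  intro ε hε
  obtain ⟨d', h1, h2⟩ := exists_lt_of_csInf_lt ⟨1, up_one φ⟩ (show bd φ < d + ε / 2 by linarith)
  obtain ⟨C, hC⟩ := h1 (ε / 2) (by linarith)
  refine ⟨C, fun X L => (hC X L).trans ?_⟩
  have : (0 : ℝ) ≤ L := by positivity
  nlinarith

lemma up_bd (φ : ℕ → Prop) : Up φ (bd φ) := up_of_le le_rfl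

lemma Up.mono (h : Up ψ d) (s : ℕ) (hφ : ∀ m, φ m → ψ (m + s)) : Up φ d := by
  intro ε hε
  obtain ⟨C, hC⟩ := h ε hε
  refine ⟨C, fun X L => le_trans (cnt_mono fun j _ h => ?_) (hC (X + s) L)⟩
  have := hφ _ h
  rwa [add_right_comm] at this

lemma bd_mono (s : ℕ) (hφ : ∀ m, φ m → ψ (m + s)) : bd φ ≤ bd ψ := bd_le ((up_bd ψ).mono s hφ)

lemma le_bd (h : ∀ ε > 0, ∃ C : ℝ, ∀ L₀ : ℕ, ∃ L : ℕ, L₀ ≤ L ∧ ∃ X, (d - ε) * L - C ≤ cnt φ X L) :
    d ≤ bd φ := by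
  by_contra hn
  have hε : 0 < (d - bd φ) / 3 := by linarith
  obtain ⟨C, hC⟩ := h _ hε
  obtain ⟨C', hC'⟩ := up_bd φ _ hε
  obtain ⟨L₀, hL⟩ := exists_neg hε (C + C')
  obtain ⟨L, h1, X, h2⟩ := hC L₀
  have := hL L h1
  have := hC' X L
  linarith

lemma lo_len (h : d ≤ bd φ) {ε : ℝ} (hε : 0 < ε) (Λ : ℕ) :
    ∃ x, (d - ε) * Λ ≤ cnt φ (Λ * x) Λ := by
  by_contra hn
  push Not at hn
  have hΛ : 0 < Λ := by
    rcases Nat.eq_zero_or_pos Λ with rfl | h
    · simpa [cnt] using hn 0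
    · exact h
  have hd : 0 ≤ d - ε := by
    have := (cnt_nonneg φ _ _).trans_lt (hn 0)
    exact (pos_of_mul_pos_left this (by positivity)).le
  have : Up φ (d - ε) := by
    intro η hη
    refine ⟨(d - ε) * (2 * Λ), fun X L => ?_⟩
    have h1 : Λ * (X / Λ) ≤ X := Nat.mul_div_le X Λ
    have h2 : X + L ≤ Λ * (X / Λ) + Λ * (L / Λ + 2) := by
      have := Nat.lt_mul_div_succ X hΛ
      have := Nat.lt_mul_div_succ L hΛ
      nlinarith
    obtain ⟨L1, L2, -, h3⟩ := cnt_sub_le φ h1 h2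
    have h4 : cnt φ (Λ * (X / Λ)) (Λ * (L / Λ + 2)) ≤ (L / Λ + 2 : ℕ) * ((d - ε) * Λ) := by
      rw [cnt_blocks]
      refine (sum_le_card_nsmul _ _ ((d - ε) * Λ) fun s _ => ?_).trans (by simp)
      rw [← mul_add]
      exact (hn _).le
    have h5 : ((Λ * (L / Λ) : ℕ) : ℝ) ≤ L := by exact_mod_cast Nat.mul_div_le L Λ
    have := cnt_nonneg φ (Λ * (X / Λ)) L1
    have := cnt_nonneg φ (X + L) L2
    have : (0 : ℝ) ≤ η * L := by positivity
    push_cast at h4 h5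
    nlinarith
  have := bd_le this
  linarith

/-- all subprogressions are tight on the same intervals -/
lemma joint (h : d ≤ bd φ) {Q : ℕ} (hU : ∀ t < Q, Up (ap φ Q t) d) {ε : ℝ} (hε : 0 < ε) :
    ∃ C : ℝ, ∀ L : ℕ, ∃ X, ∀ t < Q, (d - ε) * L - C ≤ cnt (ap φ Q t) X L := by
  have hη : 0 < ε / (2 * Q + 1) := by positivity
  have h1 : ∀ t, ∃ C : ℝ, t < Q → ∀ X L, cnt (ap φ Q t) X L ≤ (d + ε / (2 * Q + 1)) * L + C := by
    intro t
    by_cases ht : t < Q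
    · obtain ⟨C, hC⟩ := hU t ht _ hη
      exact ⟨C, fun _ => hC⟩
    · exact ⟨0, fun h => absurd h ht⟩
  choose C hC using h1
  refine ⟨∑ t ∈ range Q, |C t|, fun L => ?_⟩
  obtain ⟨x, hx⟩ := lo_len h hη (Q * L)
  refine ⟨L * x, fun t ht => ?_⟩
  rw [mul_assoc, cnt_ap] at hx
  have h2 : ∑ s ∈ range Q, (((d + ε / (2 * Q + 1)) * L + |C s|) - cnt (ap φ Q s) (L * x) L) ≥
      ((d + ε / (2 * Q + 1)) * L + |C t|) - cnt (ap φ Q t) (L * x) L := by
    refine single_le_sum (f := fun s => ((d + ε / (2 * Q + 1)) * L + |C s|) -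
      cnt (ap φ Q s) (L * x) L) (fun s hs => ?_) (mem_range.2 ht)
    have := hC s (mem_range.1 hs) (L * x) L
    have := le_abs_self (C s)
    linarith
  rw [sum_sub_distrib, sum_add_distrib] at h2
  simp only [sum_const, card_range, nsmul_eq_mul] at h2
  have h3 : ε = (2 * Q + 1) * (ε / (2 * Q + 1)) := by field_simp
  have h4 : (0 : ℝ) ≤ ε / (2 * Q + 1) * L := by positivity
  have := abs_nonneg (C t)
  push_cast at hx
  generalize ε / (2 * Q + 1) = η at *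
  subst h3
  nlinarith

lemma le_bd_ap (h : d ≤ bd φ) {Q : ℕ} (hU : ∀ t < Q, Up (ap φ Q t) d) {t : ℕ} (ht : t < Q) :
    d ≤ bd (ap φ Q t) := by
  refine le_bd fun ε hε => ?_
  obtain ⟨C, hC⟩ := joint h hU hε
  refine ⟨C, fun L => ⟨L, le_rfl, ?_⟩⟩
  obtain ⟨X, hX⟩ := hC L
  exact ⟨X, hX t ht⟩

lemma le_bd_and (h : d ≤ bd φ) {Q : ℕ} (hU : ∀ t < Q, Up (ap φ Q t) d) {t t' : ℕ} (ht : t < Q)
    (ht' : t' < Q) (hψ : Up ψ d) (h1 : ∀ m, ap φ Q t m → ψ m) (h2 : ∀ m, ap φ Q t' m → ψ m) :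
    d ≤ bd fun m => ap φ Q t m ∧ ap φ Q t' m := by
  refine le_bd fun ε hε => ?_
  obtain ⟨C, hC⟩ := joint h hU (show 0 < ε / 3 by linarith)
  obtain ⟨C', hC'⟩ := hψ (ε / 3) (by linarith)
  refine ⟨2 * C + C', fun L => ⟨L, le_rfl, ?_⟩⟩
  obtain ⟨X, hX⟩ := hC L
  refine ⟨X, ?_⟩
  have h3 : cnt (ap φ Q t) X L + cnt (ap φ Q t') X L ≤
      cnt (fun m => ap φ Q t m ∧ ap φ Q t' m) X L + cnt ψ X L := by
    simp only [cnt, ← sum_add_distrib]
    refine sum_le_sum fun j _ => ?_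
    have := h1 (X + j)
    have := h2 (X + j)
    by_cases a : ap φ Q t (X + j) <;> by_cases b : ap φ Q t' (X + j) <;>
      simp_all [ind_pos, ind_neg, ind_nonneg]
  have := hX t ht
  have := hX t' ht'
  have := hC' X L
  linarith

lemma bd_le_of_ap {Q : ℕ} (hQ : 0 < Q) (hU : ∀ t < Q, Up (ap φ Q t) d) : bd φ ≤ d := by
  by_contra hn
  have h1 : ∀ t < Q, Up (ap φ Q t) (bd φ) := fun t ht =>
    up_of_le ((bd_le (hU t ht)).trans (not_le.1 hn).le)
  exact hn ((le_bd_ap le_rfl h1 hQ).trans (bd_le (hU 0 hQ)))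

lemma sub_def {η C : ℝ} (hC : ∀ X L, cnt φ X L ≤ (d + η) * L + C) (hη : 0 ≤ η)
    {X L X' L' : ℕ} (h1 : X ≤ X') (h2 : X' + L' ≤ X + L) :
    cnt φ X L - d * L - η * L - 2 * C ≤ cnt φ X' L' - d * L' := by
  obtain ⟨L1, L2, rfl, h3⟩ := cnt_sub_le φ h1 h2
  have := hC X L1
  have := hC (X' + L') L2
  have : (0 : ℝ) ≤ η * L' := by positivity
  push_cast
  linarith

/-- a window without errors in which `φ` has bounded gaps -/
lemma good_window (hd : 0 < d) (h : d ≤ bd φ) (hψ : Up ψ d) (hφ : ∀ m, φ m → ψ m) (c : ℕ) :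
    ∃ P₀, ∀ P, P₀ ≤ P → ∃ X, (∀ j < c * P, ψ (X + j) → φ (X + j)) ∧
      ∀ X', X ≤ X' → X' + P ≤ X + c * P → ∃ j < P, φ (X' + j) := by
  set η : ℝ := d / (8 * (c + 1)) with hη
  have hη0 : 0 < η := by positivity
  have hη1 : d = 8 * (c + 1) * η := by rw [hη]; field_simp
  obtain ⟨C, hC0, hC⟩ := (hψ.mono 0 hφ).const hη0
  obtain ⟨P₀, hP⟩ := exists_neg hη0 C
  refine ⟨P₀ + 1, fun P hP1 => ?_⟩
  have hP2 := hP P (by omega)
  set Λ : ℕ := (c + 1) * P with hΛ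
  have hΛ0 : (0 : ℝ) < Λ := by exact_mod_cast (by rw [hΛ]; exact Nat.mul_pos (by omega) (by omega))
  have hΛ1 : (Λ : ℝ) = (c + 1) * P := by rw [hΛ]; push_cast; ring
  have hPΛ : (P : ℝ) ≤ Λ := by
    rw [hΛ1]
    have : (0 : ℝ) ≤ c * P := by positivity
    linarith
  have key : ∃ X, cnt ψ X Λ - cnt φ X Λ < 1 ∧ d * Λ - cnt φ X Λ ≤ 4 * η * Λ := by
    by_contra hn
    push Not at hn
    have hε : 0 < η / (1 + 8 * η * Λ) := by positivity
    have hε1 : η = η / (1 + 8 * η * Λ) * (1 + 8 * η * Λ) := by field_simp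
    obtain ⟨C', hC'⟩ := hψ _ hε
    obtain ⟨N, hN⟩ := exists_neg (show 0 < η * Λ by positivity) (4 * η * Λ * C')
    have hN := hN N le_rfl
    obtain ⟨x, hx⟩ := lo_len h hε (Λ * N)
    have h1 := hC' (Λ * N * x) (Λ * N)
    have h2 : (N : ℝ) * (4 * η * Λ) ≤ ∑ s ∈ range N, ((d * Λ - cnt φ (Λ * N * x + Λ * s) Λ +
        2 * η * Λ) + 4 * η * Λ *
          (cnt ψ (Λ * N * x + Λ * s) Λ - cnt φ (Λ * N * x + Λ * s) Λ)) := by
      refine le_trans (by simp) (card_nsmul_le_sum (range N) _ (4 * η * Λ) fun s _ => ?_)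
      have h3 := hC (Λ * N * x + Λ * s) Λ
      have h4 : cnt φ (Λ * N * x + Λ * s) Λ ≤ cnt ψ (Λ * N * x + Λ * s) Λ :=
        cnt_mono fun _ _ => hφ _
      have h5 : 0 < η * Λ := by positivity
      have h6 : η * P ≤ η * Λ := by gcongr
      by_cases h7 : cnt ψ (Λ * N * x + Λ * s) Λ - cnt φ (Λ * N * x + Λ * s) Λ < 1
      · have := hn _ h7
        nlinarith
      · nlinarith
    rw [sum_add_distrib, ← mul_sum, sum_add_distrib, sum_sub_distrib, sum_sub_distrib,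
      ← cnt_blocks, ← cnt_blocks] at h2
    simp only [sum_const, card_range, nsmul_eq_mul] at h2
    push_cast at hx h1
    generalize η / (1 + 8 * η * Λ) = ε at *
    have h8 : 4 * η * Λ * (cnt ψ (Λ * N * x) (Λ * N) - cnt φ (Λ * N * x) (Λ * N)) ≤
        4 * η * Λ * (2 * ε * (Λ * N) + C') := by
      gcongr
      linarith
    have h9 : η * (Λ * N) = ε * (Λ * N) + 4 * η * Λ * (2 * ε * (Λ * N)) := by
      conv_lhs => rw [hε1]
      ring
    nlinarith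
  obtain ⟨X, h1, h2⟩ := key
  have hc : c * P ≤ Λ := by rw [hΛ]; nlinarith
  refine ⟨X, fun j hj h3 => ?_, fun X' h3 h4 => exists_of_cnt_pos ?_⟩
  · by_contra h4
    refine absurd h1 (not_lt.2 ?_)
    simp only [cnt, ← sum_sub_distrib]
    refine le_trans ?_ (single_le_sum (fun i _ => ?_) (mem_range.2 (hj.trans_le hc)))
    · rw [ind_pos h3, ind_neg h4, sub_zero]
    · exact sub_nonneg.2 (ind_mono (hφ _))
  · have := sub_def hC hη0.le h3 (h4.trans (Nat.add_le_add_left hc X))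
    have h5 : d * P = 8 * η * Λ := by rw [hΛ1, hη1]; ring
    have h6 : η * P ≤ η * Λ := by gcongr
    have h7 : 0 < η * Λ := by positivity
    nlinarith

/-- long progressions from a tight correlation -/
lemma long_of_and (hd : 0 < d) (hU : Up φ d) {e : ℕ} (h : d ≤ bd fun m => φ m ∧ φ (m + e))
    (L : ℕ) : ∃ m, ∀ l < L, φ (m + l * e) := by
  obtain ⟨P₀, hP⟩ := good_window hd h hU (fun _ h => h.1) 2
  obtain ⟨X, h1, h2⟩ := hP (P₀ + L * e) (by omega)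
  obtain ⟨j, hj, h3⟩ := h2 X le_rfl (by omega)
  refine ⟨X + j, fun l hl => ?_⟩
  induction l with
  | zero => simpa using h3.1
  | succ l ih =>
    have h4 : l * e ≤ L * e := Nat.mul_le_mul_right _ (by omega)
    have := (h1 (j + l * e) (by omega) (by rw [← add_assoc]; exact ih (by omega))).2
    rwa [show X + (j + l * e) + e = X + j + (l + 1) * e by ring] at this

lemma pos_of_cover {S : Type} [Finite S] {F : S → ℕ → Prop} (hF : ∀ s, Up (F s) d)
    (h : ∀ y, 1 ≤ y → ∃ s, F s y) : 0 < d := by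
  have := Fintype.ofFinite S
  by_contra hd
  have hε : (0 : ℝ) < 1 / (2 * Fintype.card S + 1) := by positivity
  choose C hC using fun s => hF s _ hε
  obtain ⟨L, hL⟩ := exists_neg (a := 1 / 2) (by norm_num) (∑ s, C s)
  have h1 := hL L le_rfl
  have h2 : (L : ℝ) ≤ ∑ s, cnt (F s) 1 L := by
    simp only [cnt]
    rw [sum_comm]
    refine le_trans (by simp) (card_nsmul_le_sum (range L) _ (1 : ℝ) fun j _ => ?_)
    obtain ⟨s, hs⟩ := h (1 + j) (by omega)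
    refine le_trans ?_ (single_le_sum (fun i _ => ?_) (mem_univ s))
    · rw [ind_pos hs]
    · exact ind_nonneg _
  have h3 := sum_le_sum fun s (_ : s ∈ univ) => hC s 1 L
  rw [sum_add_distrib] at h3
  simp only [sum_const, card_univ, nsmul_eq_mul] at h3
  have h4 : (1 : ℝ) = (2 * Fintype.card S + 1) * (1 / (2 * Fintype.card S + 1)) := by field_simp
  generalize 1 / (2 * (Fintype.card S : ℝ) + 1) = η at *
  have h5 : (0 : ℝ) ≤ L := by positivity
  have h6 : (0 : ℝ) ≤ Fintype.card S := by positivity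
  have h7 : Fintype.card S * (d * L) ≤ 0 :=
    mul_nonpos_of_nonneg_of_nonpos h6 (mul_nonpos_of_nonpos_of_nonneg (not_lt.1 hd) h5)
  have h8 : (L : ℝ) = (2 * Fintype.card S + 1) * η * L := by rw [← h4, one_mul]
  have h9 : 0 ≤ η * L := by positivity
  nlinarith

end Pool.Agent.P.MP_05c0aa_nt
end

-- part Pool.Agent.P.MP_05c0aa_nt.Aut
section

/-! Automata reading base `k` digits, and densities along arithmetic progressions. -/

namespace Pool.Agent.P.MP_05c0aa_nt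

open Finset

variable {S : Type} {k : ℕ} {σ : ℕ → S} {a φ : ℕ → Prop}

/-- `σ n` is the state after reading the digits of `n`, most significant first -/
def Aut (k : ℕ) (σ : ℕ → S) : Prop :=
  ∀ n n' d, d < k → σ n = σ n' → σ (k * n + d) = σ (k * n' + d)

/-- `φ` is determined by the state -/
def Dz (σ : ℕ → S) (φ : ℕ → Prop) : Prop := ∀ y y', σ y = σ y' → φ y → φ y'

/-- `φ` is determined by the last `r` digits and the state before them -/
def Det (k : ℕ) (σ : ℕ → S) (r : ℕ) (φ : ℕ → Prop) : Prop := ∀ ρ < k ^ r, Dz σ (ap φ (k ^ r) ρ)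

/-- the set of states of `φ` -/
def kerT (σ : ℕ → S) (φ : ℕ → Prop) : S → Prop := fun s => ∃ y, σ y = s ∧ φ y

lemma Dz.iff (h : Dz σ φ) (y : ℕ) : φ y ↔ kerT σ φ (σ y) :=
  ⟨fun hy => ⟨y, rfl, hy⟩, fun ⟨y', h1, h2⟩ => h y' y h1 h2⟩

lemma Dz.ext {ψ : ℕ → Prop} (h : Dz σ φ) (h' : Dz σ ψ) (e : kerT σ φ = kerT σ ψ) : φ = ψ := by
  funext y
  rw [h.iff, h'.iff, e]

lemma finite_Dz [Finite S] (σ : ℕ → S) : {φ | Dz σ φ}.Finite :=
  Set.Finite.of_finite_image (f := kerT σ) (Set.toFinite _) fun _ h _ h' e => Dz.ext h h' e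

lemma pigeon (T : Type) [Finite T] : ∃ C : ℕ, ∀ F : ℕ → T, ∃ i j, i < j ∧ j ≤ C ∧ F i = F j := by
  have := Fintype.ofFinite T
  refine ⟨Fintype.card T, fun F => ?_⟩
  obtain ⟨i, j, h1, h2⟩ := Fintype.exists_ne_map_eq_of_card_lt
    (fun i : Fin (Fintype.card T + 1) => F i) (by simp)
  rcases lt_or_gt_of_ne (Fin.val_ne_of_ne h1) with h | h
  · exact ⟨i, j, h, by omega, h2⟩
  · exact ⟨j, i, h, by omega, h2.symm⟩

/-- some value is taken for arbitrarily large arguments -/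
lemma pigeon_inf {T : Type} [Finite T] (F : ℕ → T) : ∃ t, ∀ N, ∃ n, N ≤ n ∧ F n = t := by
  obtain ⟨t, ht⟩ := Finite.exists_infinite_fiber F
  refine ⟨t, fun N => ?_⟩
  obtain ⟨n, h1, h2⟩ := (Set.infinite_coe_iff.1 ht).exists_gt N
  exact ⟨n, h2.le, h1⟩

lemma Aut.pow (h : Aut k σ) (r : ℕ) {y y' ρ : ℕ} (hρ : ρ < k ^ r) (e : σ y = σ y') :
    σ (k ^ r * y + ρ) = σ (k ^ r * y' + ρ) := by
  induction r generalizing ρ with
  | zero =>
    obtain rfl : ρ = 0 := by simpa using hρ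
    simpa using e
  | succ r ih =>
    have hk : 0 < k := by
      rcases Nat.eq_zero_or_pos k with rfl | h
      · simp at hρ
      · exact h
    have h1 : ∀ y, k ^ (r + 1) * y + ρ = k * (k ^ r * y + ρ / k) + ρ % k := fun y => by
      have := Nat.div_add_mod ρ k
      rw [mul_add, add_assoc, this]
      ring
    rw [h1, h1]
    exact h _ _ _ (Nat.mod_lt _ hk) (ih (Nat.div_lt_of_lt_mul (by rwa [← pow_succ'])))

lemma Dz.det (h : Aut k σ) (ha : Dz σ a) (r : ℕ) : Det k σ r a :=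
  fun _ hρ _ _ e => ha _ _ (h.pow r hρ e)

lemma Det.mono (h : Aut k σ) (hk : 0 < k) {r T : ℕ} (hφ : Det k σ r φ) (hT : r ≤ T) :
    Det k σ T φ := by
  obtain ⟨s, rfl⟩ := Nat.exists_eq_add_of_le hT
  intro ρ hρ y y' e
  have h1 : ∀ y, k ^ (r + s) * y + ρ = k ^ r * (k ^ s * y + ρ / k ^ r) + ρ % k ^ r := fun y => by
    have := Nat.div_add_mod ρ (k ^ r)
    rw [mul_add, add_assoc, this]
    ring
  simp only [ap, h1]
  exact hφ _ (Nat.mod_lt _ (by positivity)) _ _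
    (h.pow s (Nat.div_lt_of_lt_mul (by rwa [← pow_add])) e)

lemma Aut.pair (h : Aut k σ) : Aut k fun y => (σ y, σ (y + 1)) := by
  intro n n' d hd e
  obtain ⟨e1, e2⟩ := Prod.mk.inj e
  refine Prod.ext (h _ _ _ hd e1) ?_
  rcases Nat.lt_or_ge (d + 1) k with h1 | h1
  · exact h _ _ _ h1 e1
  · have h2 : ∀ n, k * n + d + 1 = k * (n + 1) + 0 := fun n => by
      rw [mul_add_one]
      omega
    simp only [h2]
    exact h _ _ _ (by omega) e2

lemma det_and (h : Aut k σ) (ha : Dz σ a) {r Δ : ℕ} (hΔ : Δ ≤ k ^ r) :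
    Det k (fun y => (σ y, σ (y + 1))) r fun n => a n ∧ a (n + Δ) := by
  intro ρ hρ y y' e
  obtain ⟨e1, e2⟩ := Prod.mk.inj e
  refine And.imp (ha.det h r ρ hρ _ _ e1) ?_
  rcases Nat.lt_or_ge (ρ + Δ) (k ^ r) with h1 | h1
  · simp only [add_assoc]
    exact ha.det h r _ h1 _ _ e1
  · have h2 : ∀ y, k ^ r * y + ρ + Δ = k ^ r * (y + 1) + (ρ + Δ - k ^ r) := fun n => by
      rw [mul_add_one]
      omega
    simp only [h2]
    exact ha.det h r _ (by omega) _ _ e2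

/-- the states of `g` consecutive blocks -/
def sup (σ : ℕ → S) (g x : ℕ) : Fin g → S := fun e => σ (g * x + e)

lemma dz_sup (h : Aut k σ) (hk : 0 < k) (ha : Dz σ a) {g r j : ℕ} (hj : j < k ^ r * g) :
    Dz (sup σ g) (ap a (k ^ r * g) j) := by
  intro x x' e
  have h1 : ∀ x, k ^ r * g * x + j = k ^ r * (g * x + j / k ^ r) + j % k ^ r := fun y => by
    have := Nat.div_add_mod j (k ^ r)
    rw [mul_add, add_assoc, this]
    ring
  simp only [ap, h1]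
  exact ha.det h r _ (Nat.mod_lt _ (by positivity)) _ _
    (congrFun e ⟨j / k ^ r, Nat.div_lt_of_lt_mul hj⟩)

lemma split (k : ℕ) {M : ℕ} (hM : 0 < M) : ∃ r g, 0 < g ∧ g.Coprime k ∧ M ∣ k ^ r * g := by
  induction M using Nat.strong_induction_on with
  | _ M ih =>
    by_cases h : M.Coprime k
    · exact ⟨0, M, hM, h, by simp⟩
    · have h1 := Nat.gcd_pos_of_pos_left k hM
      obtain ⟨M', h2⟩ := Nat.gcd_dvd_left M k
      have h3 : 0 < M' := Nat.pos_of_ne_zero fun e => by rw [e] at h2; omega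
      have h4 : M.gcd k ≠ 1 := h
      obtain ⟨r, g, h5, h6, h7⟩ := ih M' (by nlinarith [show 2 ≤ M.gcd k by omega]) h3
      refine ⟨r + 1, g, h5, h6, ?_⟩
      rw [h2, pow_succ', mul_assoc]
      exact mul_dvd_mul (Nat.gcd_dvd_right M k) h7

/-- initial words with the same state that differ by any multiple of `H` modulo `g` -/
def Pref (k : ℕ) (σ : ℕ → S) (H : ℕ) : Prop := ∀ g, 0 < g → g.Coprime k → ∃ R, ∀ y, ∃ z < k ^ R,
  ∀ t : ZMod g, ∃ z' < k ^ R, σ (k ^ R * y + z') = σ (k ^ R * y + z) ∧ (z' : ZMod g) = z + H * t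

lemma exists_inv {g : ℕ} (hg : g.Coprime k) (r : ℕ) : ∃ u : ZMod g, (k : ZMod g) ^ r * u = 1 := by
  have := ((ZMod.isUnit_iff_coprime k g).2 hg.symm).pow r
  exact this.exists_right_inv

lemma exists_pref [Finite S] (h : Aut k σ) (hk : 2 ≤ k) :
    ∃ H, 0 < H ∧ H.Coprime k ∧ Pref k σ H := by
  classical
  obtain ⟨C, hC⟩ := pigeon S
  obtain ⟨r0, H, hH, hHk, hd⟩ := split k (Nat.factorial_pos C)
  refine ⟨H, hH, hHk, fun g hg hgk => ?_⟩
  have : NeZero g := ⟨hg.ne'⟩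
  have hl : C < k ^ C := Nat.lt_pow_self hk
  obtain ⟨u0, hu0⟩ := exists_inv hgk r0
  obtain ⟨u, hu⟩ := exists_inv hgk C
  have key : ∀ n y, ∃ z < k ^ (C * n), ∃ A : Finset (ZMod g), 0 ∈ A ∧
      (∀ x ∈ A, ∃ z' < k ^ (C * n), σ (k ^ (C * n) * y + z') = σ (k ^ (C * n) * y + z) ∧
        (z' : ZMod g) = z + x) ∧ (n + 1 ≤ A.card ∨ ∀ t : ZMod g, (H : ZMod g) * t ∈ A) := by
    intro n y
    induction n with
    | zero => exact ⟨0, by simp, {0}, by simp, by simp, by simp⟩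
    | succ n ih =>
      obtain ⟨z, hz, A, h0, h1, h2⟩ := ih
      obtain ⟨v, v', h3, h4, h5⟩ := hC fun v => σ (k ^ C * (k ^ (C * n) * y + z) + v)
      obtain ⟨e, rfl⟩ := Nat.exists_eq_add_of_lt h3
      have hb : ∀ z v, z < k ^ (C * n) → v < k ^ C → k ^ C * z + v < k ^ (C * (n + 1)) := by
        intro z v h1 h2
        rw [mul_add_one, pow_add]
        nlinarith
      have he : ∀ z v, k ^ (C * (n + 1)) * y + (k ^ C * z + v) =
          k ^ C * (k ^ (C * n) * y + z) + v := fun z v => by ring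
      let A' := A.image fun x => (k : ZMod g) ^ C * x
      have hA' : A'.card = A.card := card_image_of_injective _ fun x y e => by
        have e : (k : ZMod g) ^ C * x = k ^ C * y := e
        linear_combination u * e - (x - y) * hu
      have h0' : 0 ∈ A' := mem_image.2 ⟨0, h0, by simp⟩
      refine ⟨k ^ C * z + v, hb _ _ hz (by omega), A' ∪ A'.image (fun x => x + ((e + 1 : ℕ) : ZMod g)),
        mem_union_left _ h0', fun x hx => ?_, ?_⟩
      · rcases mem_union.1 hx with hx1 | hx1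
        · obtain ⟨x1, hx2, rfl⟩ := mem_image.1 hx1
          obtain ⟨z', a1, a2, a3⟩ := h1 x1 hx2
          refine ⟨k ^ C * z' + v, hb _ _ a1 (by omega), ?_, by push_cast; rw [a3]; ring⟩
          rw [he, he]
          exact h.pow C (by omega) a2
        · obtain ⟨x1, hx2, rfl⟩ := mem_image.1 hx1
          obtain ⟨x2, hx3, rfl⟩ := mem_image.1 hx2
          obtain ⟨z', a1, a2, a3⟩ := h1 x2 hx3
          refine ⟨k ^ C * z' + (v + e + 1), hb _ _ a1 (by omega), ?_,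
            by push_cast; rw [a3]; ring⟩
          rw [he, he]
          exact (h.pow C (by omega) a2).trans h5.symm
      · rcases h2 with h2 | h2
        · by_cases h6 : A'.image (fun x => x + ((e + 1 : ℕ) : ZMod g)) ⊆ A'
          · refine Or.inr fun t => mem_union_left _ ?_
            have h7 : ∀ s : ℕ, ((s * (e + 1) : ℕ) : ZMod g) ∈ A' := by
              intro s
              induction s with
              | zero => simpa using h0'
              | succ s ih => exact h6 (mem_image.2 ⟨_, ih, by push_cast; ring⟩)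
            obtain ⟨d', hd'⟩ := (Nat.dvd_factorial (m := e + 1) (by omega) (by omega)).trans hd
            have h8 := congrArg (Nat.cast : ℕ → ZMod g) hd'
            convert h7 (d' * u0 * t : ZMod g).val using 1
            push_cast at h8 ⊢
            rw [ZMod.natCast_zmod_val]
            linear_combination u0 * t * h8 - H * t * hu0
          · left
            have := card_lt_card (Finset.ssubset_iff_subset_ne.2 ⟨subset_union_left (s₁ := A')
              (s₂ := A'.image (fun x => x + ((e + 1 : ℕ) : ZMod g))),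
              fun e' => h6 (subset_union_right.trans e'.ge)⟩)
            omega
        · refine Or.inr fun t => mem_union_left _ (mem_image.2 ⟨_, h2 (u * t), ?_⟩)
          linear_combination H * t * hu
  refine ⟨C * g, fun y => ?_⟩
  obtain ⟨z, hz, A, -, h1, h2⟩ := key g y
  refine ⟨z, hz, fun t => h1 _ (h2.resolve_left (fun h => ?_) t)⟩
  have := card_le_univ A
  rw [ZMod.card] at this
  omega

lemma cnt_ap' (φ : ℕ → Prop) (X Q L : ℕ) :
    cnt φ X (Q * L) = ∑ t ∈ range Q, cnt (fun m => φ (X + (Q * m + t))) 0 L := by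
  have := cnt_ap (fun m => φ (X + m)) Q 0 L
  simpa [cnt, ap] using this

/-- densities along classes modulo numbers prime to `k` stabilise -/
lemma stab (h : Aut k σ) (hk : 2 ≤ k) {H : ℕ} (hP : Pref k σ H) {r0 : ℕ} (hφ : Det k σ r0 φ)
    {g : ℕ} (hg : 0 < g) (hgk : g.Coprime k) (hH : H ∣ g) (r ρ : ℕ) :
    bd (ap φ (k ^ r * g) ρ) ≤ bd (ap φ (k ^ r * H) ρ) := by
  obtain ⟨R, hR⟩ := hP g hg hgk
  obtain ⟨g', hg'⟩ := hH
  have hH0 : 0 < H := Nat.pos_of_ne_zero fun e => by rw [e] at hg'; omega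
  have hg0 : 0 < g' := Nat.pos_of_ne_zero fun e => by rw [e] at hg'; omega
  set M := k ^ r * g with hM
  set M2 := k ^ r * H with hM2
  have hMM : M = M2 * g' := by rw [hM, hM2, hg']; ring
  have hM0 : 0 < M := by positivity
  have hM20 : 0 < M2 := by positivity
  set d := bd (ap φ M ρ)
  refine le_bd fun ε hε => ?_
  set c : ℕ := 2 * k ^ R * M with hc
  have hc0 : (0 : ℝ) < c := by positivity
  have hη : 0 < ε / (2 * c) := by positivity
  obtain ⟨C, hC⟩ := up_bd (ap φ M ρ) _ hη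
  refine ⟨g' * (2 * ε + 2 * C), fun L₀ => ?_⟩
  set T := M * (L₀ + 1) + r + r0 with hT
  have hT1 : T < k ^ T := Nat.lt_pow_self hk
  obtain ⟨L, hL1, hL2⟩ : ∃ L, M * (L + 1) ≤ k ^ T ∧ k ^ T < M * (L + 2) := by
    have h1 : 1 ≤ k ^ T / M := (Nat.le_div_iff_mul_le hM0).2 (by nlinarith)
    refine ⟨k ^ T / M - 1, ?_, ?_⟩
    · rw [Nat.sub_add_cancel h1]
      exact Nat.mul_div_le _ _
    · rw [show k ^ T / M - 1 + 2 = k ^ T / M + 1 by omega]
      exact Nat.lt_mul_div_succ _ hM0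
  have hL3 : L₀ ≤ L := by
    have : M * (L₀ + 1) < M * (L + 2) := by omega
    have := Nat.lt_of_mul_lt_mul_left this
    omega
  refine ⟨g' * L, by nlinarith, ?_⟩
  set Λ := 2 * (k ^ T * k ^ R) with hΛ
  obtain ⟨x, hx⟩ := lo_len (le_refl d) hη Λ
  set X := Λ * x
  have hK : 0 < k ^ T * k ^ R := by positivity
  set y := (M * X + ρ) / (k ^ T * k ^ R) + 1 with hy
  have hy1 : M * X + ρ < k ^ T * k ^ R * y := Nat.lt_mul_div_succ _ hK
  have hy2 : k ^ T * k ^ R * (y + 1) ≤ M * X + ρ + Λ := by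
    have := Nat.mul_div_le (M * X + ρ) (k ^ T * k ^ R)
    rw [hy, hΛ]
    nlinarith
  obtain ⟨z, hz, hz'⟩ := hR y
  obtain ⟨m2, j, hj, hm2⟩ : ∃ m2 j, j < M2 ∧ k ^ T * (k ^ R * y + z) + j = M2 * m2 + ρ := by
    obtain ⟨w, hw⟩ : ∃ w, k ^ T * (k ^ R * y + z) = ρ + w + 1 :=
      Nat.exists_eq_add_of_lt (by nlinarith [Nat.zero_le (k ^ T * z), Nat.zero_le (M * X)])
    refine ⟨w / M2 + 1, M2 - 1 - w % M2, by omega, ?_⟩
    have := Nat.div_add_mod w M2
    have := Nat.mod_lt w hM20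
    rw [hw, mul_add_one]
    omega
  refine ⟨m2, ?_⟩
  rw [cnt_ap']
  have hΛc : (Λ : ℝ) ≤ c * (L + 2) := by
    have : Λ ≤ c * (L + 2) := by
      rw [hΛ, hc]
      nlinarith [Nat.zero_le (k ^ R)]
    exact_mod_cast this
  have h2η : 2 * (ε / (2 * c)) * Λ ≤ ε * (L + 2) := by
    calc _ ≤ 2 * (ε / (2 * c)) * (c * (L + 2)) := by gcongr
      _ = _ := by field_simp
  refine le_trans (le_of_eq ?_) (card_nsmul_le_sum (range g') _
    ((d - ε) * L - (2 * ε + 2 * C)) fun s hs => ?_)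
  · simp only [card_range, nsmul_eq_mul]
    push_cast
    ring
  have hs := mem_range.1 hs
  obtain ⟨u, hu⟩ := exists_inv hgk T
  obtain ⟨z', a1, a2, a3⟩ := hz' (-(k ^ r * (m2 + s) * u))
  have hj0 : j + M2 * s < M := by rw [hMM]; nlinarith
  have hmod : ρ ≡ k ^ T * (k ^ R * y + z') + (j + M2 * s) [MOD M] := by
    refine (Nat.modEq_and_modEq_iff_modEq_mul (hgk.symm.pow_left r)).1 ⟨?_, ?_⟩
    · rw [← ZMod.natCast_eq_natCast_iff]
      have e := congrArg (Nat.cast : ℕ → ZMod (k ^ r)) hm2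
      have e0 : (k : ZMod (k ^ r)) ^ r = 0 := by exact_mod_cast ZMod.natCast_self (k ^ r)
      have e1 : (k : ZMod (k ^ r)) ^ T = 0 := pow_eq_zero_of_le (by omega) e0
      rw [hM2] at e ⊢
      push_cast at e ⊢
      rw [e0, e1] at e ⊢
      linear_combination -e
    · rw [← ZMod.natCast_eq_natCast_iff]
      have e := congrArg (Nat.cast : ℕ → ZMod g) hm2
      rw [hM2] at e ⊢
      push_cast at e ⊢
      rw [a3]
      linear_combination -e + H * k ^ r * (m2 + s) * hu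
  have hlo : k ^ T * k ^ R * y ≤ k ^ T * (k ^ R * y + z') := by nlinarith [Nat.zero_le (k ^ T * z')]
  have hhi : k ^ T * (k ^ R * y + z') + k ^ T ≤ k ^ T * k ^ R * (y + 1) := by
    have := Nat.mul_le_mul_left (k ^ T) (show z' + 1 ≤ k ^ R from a1)
    nlinarith
  obtain ⟨m, hm⟩ := (Nat.modEq_iff_exists_eq_add (by omega)).1 hmod
  have hm1 : X ≤ m := Nat.le_of_mul_le_mul_left (show M * X ≤ M * m by omega) hM0
  have hm3 : m + L ≤ X + Λ := Nat.le_of_mul_le_mul_left (show M * (m + L) ≤ M * (X + Λ) by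
    have : Λ ≤ M * Λ := Nat.le_mul_of_pos_left _ hM0
    rw [mul_add_one] at hL1
    rw [mul_add, mul_add]
    omega) hM0
  have h1 := sub_def hC hη.le hm1 hm3
  refine le_trans (by linarith) (cnt_mono (φ := ap φ M ρ) (X := m) fun l hl h2 => ?_)
  have hl' : j + M2 * s + M * l < k ^ T := by nlinarith
  have h3 := hφ.mono h (by omega) (show r0 ≤ T by omega) _ hl' _ _ a2
  simp only [ap] at h2 h3 ⊢
  rw [show M2 * (m2 + (g' * (0 + l) + s)) + ρ =
    k ^ T * (k ^ R * y + z) + (j + M2 * s + M * l) by rw [hMM]; nlinarith]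
  apply h3
  rwa [show k ^ T * (k ^ R * y + z') + (j + M2 * s + M * l) = M * (m + l) + ρ by
    rw [mul_add M]; omega]

lemma ap_ap (φ : ℕ → Prop) (M ρ Q t : ℕ) : ap (ap φ M ρ) Q t = ap φ (M * Q) (M * t + ρ) := by
  funext m
  simp only [ap]
  congr 1
  ring

lemma bd_ap_mod (φ : ℕ → Prop) (M ρ : ℕ) : bd (ap φ M ρ) ≤ bd (ap φ M (ρ % M)) := by
  refine bd_mono (ρ / M) fun m h => ?_
  simp only [ap] at h ⊢
  rwa [mul_add, add_assoc, Nat.div_add_mod]

/-- the largest density along a progression is attained -/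
lemma exists_max [Finite S] (h : Aut k σ) (hk : 2 ≤ k) (ha : Dz σ a) :
    ∃ D, (∀ M ρ, 0 < M → Up (ap a M ρ) D) ∧ ∃ M ρ, 0 < M ∧ D ≤ bd (ap a M ρ) := by
  obtain ⟨H, hH, hHk, hP⟩ := exists_pref h hk
  obtain ⟨φ, ⟨r, ρ, -, rfl⟩, hmax⟩ := Set.exists_max_image
    {φ | ∃ r ρ, ρ < k ^ r * H ∧ φ = ap a (k ^ r * H) ρ} bd
    ((finite_Dz (sup σ H)).subset (by
      rintro _ ⟨r, ρ, h1, rfl⟩
      exact dz_sup h (by omega) ha h1)) ⟨_, 0, 0, by simpa using hH, rfl⟩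
  refine ⟨bd (ap a (k ^ r * H) ρ), fun M ρ' hM => up_of_le ?_, k ^ r * H, ρ, by positivity, le_rfl⟩
  obtain ⟨r', g, hg, hgk, Q, hQ⟩ := split k hM
  have hQ0 : 0 < Q := Nat.pos_of_ne_zero fun e => by
    rw [e, mul_zero] at hQ
    exact absurd hQ (by positivity)
  refine bd_le_of_ap (Q := Q * H) (by positivity) fun t _ => up_of_le ?_
  rw [ap_ap, ← mul_assoc, ← hQ, mul_assoc]
  refine (stab h hk hP (ha.det h 0) (by positivity) (hgk.mul_left hHk) (dvd_mul_left H g) _ _).trans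
    ((bd_ap_mod _ _ _).trans (hmax _ ⟨r', _, Nat.mod_lt _ (by positivity), rfl⟩))

end Pool.Agent.P.MP_05c0aa_nt
end

-- part Pool.Agent.P.MP_05c0aa_nt.Rot
section

/-! Irrational rotations and powers modulo prime powers. -/

namespace Pool.Agent.P.MP_05c0aa_nt

open Filter Topology

/-- multiplicative independence -/
def Ind (x y : ℝ) : Prop := ∀ s r : ℕ, 0 < s → x ^ s ≠ y ^ r ∧ x ^ s * y ^ r ≠ 1

lemma rot {x y : ℝ} (hx : 0 < x) (hy : 1 < y) (hi : Ind x y) {α β : ℝ} (hα : 0 < α) (hβ : α < β)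
    (N : ℕ) : ∃ n, N ≤ n ∧ ∃ b : ℤ, α < x ^ n * y ^ b ∧ x ^ n * y ^ b < β := by
  have hy0 : 0 < y := by linarith
  have hB : 0 < Real.log y := Real.log_pos hy
  have : Fact (0 < Real.log y) := ⟨hB⟩
  have h1 : Irrational (Real.log x / Real.log y) := by
    rintro ⟨q, hq⟩
    have h2 : (q.den : ℝ) * Real.log x = (q.num : ℝ) * Real.log y := by
      rw [Rat.cast_def, div_eq_div_iff (by exact_mod_cast q.den_nz) hB.ne'] at hq
      linarith
    have h3 : x ^ q.den = y ^ q.num := by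
      apply Real.log_injOn_pos (Set.mem_Ioi.2 (by positivity)) (Set.mem_Ioi.2 (by positivity))
      rw [Real.log_pow, Real.log_zpow, h2]
    obtain ⟨r, hr | hr⟩ := Int.eq_nat_or_neg q.num
    · exact (hi q.den r q.den_pos).1 (by rw [h3, hr, zpow_natCast])
    · exact (hi q.den r q.den_pos).2 (by
        rw [h3, hr, zpow_neg, zpow_natCast, inv_mul_cancel₀ (by positivity)])
  have h2 := AddCircle.denseRange_zsmul_coe_iff.2 h1
  have hab : Real.log α < Real.log β := Real.log_lt_log hα hβ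
  have h3 := ((mapClusterPt_atTop_nsmul_tfae
    (((Real.log α + Real.log β) / 2 : ℝ) : AddCircle (Real.log y))
    ((Real.log x : ℝ) : AddCircle (Real.log y))).out 3 0).1 (h2 _)
  have h4 : ((↑) : ℝ → AddCircle (Real.log y)) '' Set.Ioo (Real.log α) (Real.log β) ∈
      𝓝 (((Real.log α + Real.log β) / 2 : ℝ) : AddCircle (Real.log y)) :=
    (QuotientAddGroup.isOpenMap_coe _ isOpen_Ioo).mem_nhds
      ⟨_, ⟨by linarith, by linarith⟩, rfl⟩
  obtain ⟨n, hn, w, hw, h5⟩ := frequently_atTop.1 (mapClusterPt_iff_frequently.1 h3 _ h4) N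
  rw [← AddCircle.coe_nsmul, QuotientAddGroup.eq_iff_sub_mem] at h5
  obtain ⟨b, hb⟩ := AddSubgroup.mem_zmultiples_iff.1 h5
  have h6 : Real.log (x ^ n * y ^ b) = w := by
    rw [Real.log_mul (by positivity) (by positivity), Real.log_pow, Real.log_zpow]
    simp only [zsmul_eq_mul, nsmul_eq_mul] at hb
    linarith
  have h7 : 0 < x ^ n * y ^ b := by positivity
  refine ⟨n, hn, b, ?_, ?_⟩
  · exact (Real.log_lt_log_iff hα h7).1 (h6 ▸ hw.1)
  · exact (Real.log_lt_log_iff h7 (by linarith)).1 (h6 ▸ hw.2)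

/-- a fraction in lowest terms that is neither an integer nor the inverse of one -/
lemma ind_frac {u w k : ℕ} (hu : 2 ≤ u) (hw : 2 ≤ w) (h : u.Coprime w) :
    Ind ((w : ℝ) / u) k := by
  intro s r hs
  have hu0 : (u : ℝ) ^ s ≠ 0 := by positivity
  constructor
  · intro e
    rw [div_pow, div_eq_iff hu0] at e
    have e' : w ^ s = k ^ r * u ^ s := by exact_mod_cast e
    have := (h.pow s s).eq_one_of_dvd (e' ▸ dvd_mul_left _ _)
    exact absurd this (Nat.one_lt_pow hs.ne' hu).ne'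
  · intro e
    rw [div_pow, div_mul_eq_mul_div, div_eq_one_iff_eq hu0] at e
    have e' : w ^ s * k ^ r = u ^ s := by exact_mod_cast e
    have := (h.symm.pow s s).eq_one_of_dvd (e' ▸ dvd_mul_right _ _)
    exact absurd this (Nat.one_lt_pow hs.ne' hw).ne'

lemma pow_dense {p K : ℕ} (hp : p.Prime) (hK : 2 ≤ K) (h : K.Coprime p) :
    ∃ E : ℕ, ∀ (z : ℤ) (N T : ℕ), ∃ t, T ≤ t ∧ (p : ℤ) ^ N ∣ (K : ℤ) ^ t - (1 + p ^ E * z) := by
  have hs : 0 < (p ^ 2).totient := Nat.totient_pos.2 (pow_pos hp.pos 2)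
  have h1 : 1 < K ^ (p ^ 2).totient := Nat.one_lt_pow hs.ne' hK
  have h2 : p ^ 2 ∣ K ^ (p ^ 2).totient - 1 :=
    (Nat.modEq_iff_dvd' h1.le).1 (Nat.ModEq.pow_totient (h.pow_right 2)).symm
  obtain ⟨c0, hc0⟩ := h2
  obtain ⟨e, c, hc, h3⟩ := Nat.exists_eq_pow_mul_and_not_dvd
    (show c0 ≠ 0 by rintro rfl; omega) p hp.ne_one
  have h4 : (K : ℤ) ^ (p ^ 2).totient = 1 + p ^ (e + 2) * c := by
    have : K ^ (p ^ 2).totient = 1 + p ^ (e + 2) * c := by
      rw [pow_add, mul_comm (p ^ e), mul_assoc, ← h3, ← hc0]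
      omega
    exact_mod_cast this
  set K1 : ℤ := (K : ℤ) ^ (p ^ 2).totient
  have key : ∀ (z : ℤ) (T N : ℕ), ∃ t, T ≤ t ∧
      (p : ℤ) ^ (N + (e + 2)) ∣ K1 ^ t - (1 + p ^ (e + 2) * z) := by
    intro z T N
    induction N with
    | zero =>
      refine ⟨T, le_rfl, ?_⟩
      have := sub_dvd_pow_sub_pow K1 1 T
      rw [one_pow, h4, add_sub_cancel_left] at this
      rw [zero_add, ← sub_sub, h4]
      exact ((dvd_mul_right _ _).trans this).sub (dvd_mul_right _ _)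
    | succ N ih =>
      obtain ⟨t, ht, d, hd⟩ := ih
      obtain ⟨y, hy⟩ := ZMod.exists_one_add_mul_pow_prime_pow_eq (R := ℤ) (u := p ^ (e + 2))
        (v := p) hp (dvd_pow_self _ (by omega)) (by
          rw [← pow_succ', ← pow_succ, ← pow_mul]
          exact pow_dvd_pow _ (by nlinarith [hp.two_le])) c N
      obtain ⟨s, hs⟩ : ∃ s : ℕ, (p : ℤ) ∣ d + s * c := by
        have : Fact p.Prime := ⟨hp⟩
        have h5 : (c : ZMod p) ≠ 0 := fun h => hc ((ZMod.natCast_eq_zero_iff c p).1 h)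
        refine ⟨(-(d : ZMod p) / c).val, (ZMod.intCast_zmod_eq_zero_iff_dvd _ _).1 ?_⟩
        push_cast
        rw [ZMod.natCast_zmod_val]
        field_simp
        ring
      obtain ⟨s', hs'⟩ := hs
      obtain ⟨w, hw⟩ := sq_dvd_add_pow_sub_sub ((p : ℤ) ^ N * p ^ (e + 2) * (c + p * y)) 1 s
      refine ⟨t + p ^ N * s, by omega, ?_⟩
      have h5 : K1 ^ (p ^ N * s) = 1 + p ^ N * p ^ (e + 2) * (c + p * y) * s +
          (p ^ N * p ^ (e + 2) * (c + p * y)) ^ 2 * w := by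
        rw [pow_mul, h4, hy]
        simp only [one_pow, one_mul] at hw
        linear_combination hw
      have h6 : K1 ^ t = 1 + p ^ (e + 2) * z + p ^ (N + (e + 2)) * d := by linear_combination hd
      have h7 : d = p * s' - s * c := by linear_combination hs'
      refine ⟨s' + y * s + (c + p * y) * s * (p ^ (e + 1) * z + p ^ (N + e + 1) * d) +
        p ^ (N + e + 1) * (c + p * y) ^ 2 * w * K1 ^ t, ?_⟩
      rw [pow_add, h5, h6, h7]
      ring
  refine ⟨e + 2, fun z N T => ?_⟩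
  obtain ⟨t, ht, h5⟩ := key z T N
  refine ⟨(p ^ 2).totient * t, by nlinarith, ?_⟩
  rw [pow_mul]
  exact (pow_dvd_pow _ (by omega)).trans h5

lemma in_block {K Y n : ℕ} {x C : ℝ} (h1 : (Y + 1 / 3) * K < x) (h2 : x < (Y + 2 / 3) * K)
    (h3 : |n - x| ≤ C) (h4 : 3 * C ≤ K) : K * Y ≤ n ∧ n < K * (Y + 1) := by
  obtain ⟨h5, h6⟩ := abs_le.1 h3
  constructor
  · have : (K : ℝ) * Y ≤ n := by linarith
    exact_mod_cast this
  · have : (n : ℝ) < K * (Y + 1) := by linarith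
    exact_mod_cast this

end Pool.Agent.P.MP_05c0aa_nt
end

-- part Pool.Agent.P.MP_05c0aa_nt.Step
section

/-! Sets closed under a piecewise affine map: transport of classes, and positive density. -/

namespace Pool.Agent.P.MP_05c0aa_nt

variable {S : Type} {k : ℕ} {σ : ℕ → S} {a : ℕ → Prop} {p q u w : ℕ} {D : ℝ}

/-- the class `c` mod `U` is carried to the class `c'` mod `W` -/
def Imp (a : ℕ → Prop) (U c W c' : ℕ) : Prop := ∀ m, a (U * m + c) → a (W * m + c')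

/-- `a` is closed under a map whose branches have slopes `q ^ i / p ^ j`, one of them linear -/
structure Sys (p q u w : ℕ) (a : ℕ → Prop) : Prop where
  pp : p.Prime
  qq : q.Prime
  ne : p ≠ q
  step : ∀ n, ∃ j i c', 1 ≤ j ∧ j ≤ 2 ∧ 1 ≤ i ∧ Imp a (p ^ j) (n % p ^ j) (q ^ i) c'
  hu : ∃ j, 1 ≤ j ∧ u = p ^ j
  hw : ∃ i, 1 ≤ i ∧ w = q ^ i
  sp : Imp a u 0 w 0

lemma Imp.comp {U c W c' U' e W' e' μ ν : ℕ} (h : Imp a U c W c') (h' : Imp a U' e W' e')
    (hμ : W * μ + c' = U' * ν + e) : Imp a (U * U') (U * μ + c) (W * W') (W' * ν + e') := by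
  intro m h1
  have h2 := h (U' * m + μ) (by rwa [show U * (U' * m + μ) + c = U * U' * m + (U * μ + c) by ring])
  have h3 := h' (W * m + ν) (by
    rwa [show U' * (W * m + ν) + e = W * (U' * m + μ) + c' by nlinarith])
  rwa [show W * W' * m + (W' * ν + e') = W' * (W * m + ν) + e' by ring]

lemma Sys.pow (h : Sys p q u w a) (i : ℕ) : Imp a (u ^ i) 0 (w ^ i) 0 := by
  induction i with
  | zero => exact fun m h => by simpa using h
  | succ i ih => simpa [pow_succ] using ih.comp h.sp (μ := 0) (ν := 0) (by simp)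

lemma Sys.cop (h : Sys p q u w a) : p.Coprime q := (Nat.coprime_primes h.pp h.qq).2 h.ne

lemma Sys.facts (h : Sys p q u w a) : 2 ≤ u ∧ 2 ≤ w ∧ u.Coprime w := by
  obtain ⟨j, h1, rfl⟩ := h.hu
  obtain ⟨i, h2, rfl⟩ := h.hw
  exact ⟨Nat.one_lt_pow (by omega) h.pp.one_lt, Nat.one_lt_pow (by omega) h.qq.one_lt,
    h.cop.pow _ _⟩

lemma Sys.absorb (h : Sys p q u w a) (e ρ : ℕ) :
    ∃ J I c', e ≤ J ∧ Imp a (p ^ J) (ρ % p ^ J) (q ^ I) c' := by
  induction e with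
  | zero => exact ⟨0, 0, 0, le_rfl, fun m h => by simpa [Nat.mod_one] using h⟩
  | succ e ih =>
    obtain ⟨J, I, c', h1, h2⟩ := ih
    obtain ⟨j, i, c'', h3, -, -, h4⟩ := h.step (q ^ I * (ρ / p ^ J) + c')
    have h5 : (q ^ I * (ρ / p ^ J % p ^ j) + c') % p ^ j = (q ^ I * (ρ / p ^ J) + c') % p ^ j :=
      ((Nat.mod_modEq _ _).mul_left _).add_right _
    have h6 := h2.comp h4 (μ := ρ / p ^ J % p ^ j)
      (ν := (q ^ I * (ρ / p ^ J % p ^ j) + c') / p ^ j) (by rw [← h5, Nat.div_add_mod])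
    refine ⟨J + j, I + i, q ^ i * ((q ^ I * (ρ / p ^ J % p ^ j) + c') / p ^ j) + c'', by omega, ?_⟩
    rw [pow_add, pow_add, Nat.mod_mul, add_comm]
    exact h6

/-- the maximal density is attained for a modulus prime to `p` -/
lemma Sys.core (h : Sys p q u w a) (hU : ∀ M ρ, 0 < M → Up (ap a M ρ) D) {M ρ : ℕ} (hM : 0 < M)
    (hD : D ≤ bd (ap a M ρ)) :
    ∃ M ρ, 0 < M ∧ M.Coprime p ∧ ρ < M ∧ D ≤ bd (ap a M ρ) := by
  obtain ⟨e, M', h1, rfl⟩ := Nat.exists_eq_pow_mul_and_not_dvd hM.ne' p h.pp.ne_one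
  obtain ⟨J, I, c', h2, h3⟩ := h.absorb e ρ
  obtain ⟨s, rfl⟩ := Nat.exists_eq_add_of_le h2
  have hp := h.pp.pos
  have hq := h.qq.pos
  have h4 : 0 < M' := Nat.pos_of_mul_pos_left hM
  have h5 := le_bd_ap hD (Q := p ^ s) (fun t _ => by rw [ap_ap]; exact hU _ _ (by positivity))
    (t := 0) (by positivity)
  refine ⟨q ^ I * M', _, by positivity, (h.cop.symm.pow_left I).mul_left
    ((Nat.Prime.coprime_iff_not_dvd h.pp).2 h1).symm, Nat.mod_lt _ (by positivity),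
    h5.trans ((bd_mono 0 fun m hm => ?_).trans
      (bd_ap_mod a _ (q ^ I * (ρ / p ^ (e + s)) + c')))⟩
  simp only [ap] at hm ⊢
  have h6 := h3 (M' * m + ρ / p ^ (e + s)) (by
    rwa [mul_add, add_assoc, Nat.div_add_mod, show p ^ (e + s) * (M' * m) =
      p ^ e * M' * (p ^ s * m + 0) by ring])
  rwa [show q ^ I * M' * (m + 0) + (q ^ I * (ρ / p ^ (e + s)) + c') =
    q ^ I * (M' * m + ρ / p ^ (e + s)) + c' by ring]

lemma ap_sub (a : ℕ → Prop) {M ρ Q c : ℕ} (hc : c < M * Q) (h : c % M = ρ) :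
    c / M < Q ∧ ap a (M * Q) c = ap (ap a M ρ) Q (c / M) :=
  ⟨Nat.div_lt_of_lt_mul hc, by rw [ap_ap, ← h, Nat.div_add_mod]⟩

lemma hit (hk : 2 ≤ k) {Y n : ℕ} {x C : ℝ} {b : ℤ} (h1 : Y + 1 / 3 < x * k ^ b)
    (h2 : x * k ^ b < Y + 2 / 3) (h3 : |n - x| ≤ C) (h4 : (3 * C + 1) * (Y + 1) ≤ x) :
    ∃ τ, k ^ τ * Y ≤ n ∧ n < k ^ τ * (Y + 1) := by
  have hk1 : (1 : ℝ) < k := by exact_mod_cast hk
  have h5 : 0 < (k : ℝ) ^ (-b) := by positivity
  have h6 : (k : ℝ) ^ b * k ^ (-b) = 1 := by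
    rw [zpow_neg, mul_inv_cancel₀ (by positivity)]
  have h7 : 0 ≤ C := (abs_nonneg _).trans h3
  have h8 : x = x * k ^ b * k ^ (-b) := by rw [mul_assoc, h6, mul_one]
  have h9 : x < (Y + 2 / 3) * k ^ (-b) := by
    rw [h8]
    gcongr
  have h10 : 3 * C + 1 ≤ (k : ℝ) ^ (-b) := by
    by_contra hn
    have : (0 : ℝ) ≤ Y := by positivity
    nlinarith
  obtain ⟨τ, hτ⟩ := Int.eq_ofNat_of_zero_le ((one_le_zpow_iff_right₀ hk1).1
    (show (1 : ℝ) ≤ (k : ℝ) ^ (-b) by linarith))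
  rw [hτ, zpow_natCast] at h5 h6 h8 h9 h10
  refine ⟨τ, in_block (x := x) (C := C) ?_ (by exact_mod_cast h9) h3 (by push_cast; linarith)⟩
  push_cast
  rw [h8]
  gcongr

/-- every word is the beginning of the expansion of an element -/
def Pre (k : ℕ) (a : ℕ → Prop) : Prop :=
  ∀ Y, 1 ≤ Y → ∃ τ n, a n ∧ k ^ τ * Y ≤ n ∧ n < k ^ τ * (Y + 1)

lemma pre_affine (hk : 2 ≤ k) {c e y : ℕ} (hc : 2 ≤ c) (hi : Ind c k) (hy : 1 ≤ y) (h0 : a y)
    (h : ∀ y, a y → a (c * y + e)) : Pre k a := by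
  intro Y _
  have hc1 : (1 : ℝ) < c := by exact_mod_cast hc
  have hc2 : (0 : ℝ) < c - 1 := by linarith
  have hz : (1 : ℝ) ≤ y + e / (c - 1) := by
    have : (1 : ℝ) ≤ y := by exact_mod_cast hy
    have : (0 : ℝ) ≤ e / (c - 1) := by positivity
    linarith
  have h1 : ∀ n : ℕ, ∃ m : ℕ, a m ∧ (m : ℝ) = c ^ n * (y + e / (c - 1)) - e / (c - 1) := by
    intro n
    induction n with
    | zero => exact ⟨y, h0, by simp⟩
    | succ n ih =>
      obtain ⟨m, h1, h2⟩ := ih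
      refine ⟨_, h m h1, ?_⟩
      push_cast
      rw [h2]
      field_simp
      ring
  set z : ℝ := y + e / (c - 1)
  obtain ⟨N, hN⟩ := exists_nat_ge ((3 * (e / (c - 1)) + 1) * (Y + 1) : ℝ)
  obtain ⟨n, hn, b, h2, h3⟩ := rot (by linarith) (by exact_mod_cast hk) hi
    (α := (Y + 1 / 3) / z) (β := (Y + 2 / 3) / z) (by positivity) (by gcongr; norm_num) N
  obtain ⟨m, h4, h5⟩ := h1 n
  rw [div_lt_iff₀ (by linarith)] at h2
  rw [lt_div_iff₀ (by linarith)] at h3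
  have h6 : (N : ℝ) ≤ c ^ n := by
    exact_mod_cast hn.trans (Nat.lt_pow_self hc).le
  obtain ⟨τ, h7⟩ := hit hk (Y := Y) (n := m) (x := c ^ n * z) (C := e / (c - 1)) (b := b)
    (by linarith) (by linarith) (by rw [h5]; simp [abs_of_nonneg (show (0 : ℝ) ≤ e / (c - 1) by
      positivity)]) (by nlinarith [show (0 : ℝ) ≤ c ^ n by positivity])
  exact ⟨τ, m, h4, h7⟩

lemma Pre.of_ap {r ρ : ℕ} (hρ : ρ < k ^ r) (h : Pre k (ap a (k ^ r) ρ)) : Pre k a := by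
  intro Y hY
  obtain ⟨τ, n, h1, h2, h3⟩ := h Y hY
  refine ⟨r + τ, _, h1, ?_, ?_⟩
  · rw [pow_add, mul_assoc]
    exact (Nat.mul_le_mul_left _ h2).trans (Nat.le_add_right _ _)
  · rw [pow_add, mul_assoc]
    have := Nat.mul_le_mul_left (k ^ r) (show n + 1 ≤ _ from h3)
    rw [mul_add_one] at this
    omega

lemma Sys.pre_dvd [Finite S] (h : Sys p q u w a) (hk : 2 ≤ k) (hσ : Aut k σ) (ha : Dz σ a)
    (hinf : ∀ N, ∃ n, N ≤ n ∧ a n) (hpk : p ∣ k) : Pre k a := by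
  obtain ⟨k', hk'⟩ := hpk
  have hk0 : 0 < k' := Nat.pos_of_ne_zero fun e => by rw [e] at hk'; omega
  have hq := h.qq.two_le
  let R : (ℕ → Prop) → (ℕ → Prop) → Prop := fun b b' =>
    ∃ I J e, 1 ≤ I ∧ ∀ y, b y → b' (q ^ I * k' ^ J * y + e)
  have h1 : ∀ x : ℕ × ℕ, ∃ x' : ℕ × ℕ, 2 ≤ x.1 → x'.2 < k ^ x'.1 ∧ x.1 ≤ x'.1 + 2 ∧
      R (ap a (k ^ x.1) x.2) (ap a (k ^ x'.1) x'.2) := by
    rintro ⟨r, ρ⟩
    obtain ⟨j, i, c', h1, h2, h3, h4⟩ := h.step ρ
    refine ⟨(r - j, (q ^ i * (ρ / p ^ j) + c') % k ^ (r - j)), fun hr =>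
      ⟨Nat.mod_lt _ (by positivity), by simp only; omega, i, j,
        (q ^ i * (ρ / p ^ j) + c') / k ^ (r - j), h3, fun y hy => ?_⟩⟩
    obtain ⟨s, rfl⟩ := Nat.exists_eq_add_of_le (show j ≤ r from h2.trans hr)
    simp only [ap, Nat.add_sub_cancel_left] at hy ⊢
    have h5 := h4 (k' ^ j * k ^ s * y + ρ / p ^ j) (by
      rwa [mul_add, add_assoc, Nat.div_add_mod, show p ^ j * (k' ^ j * k ^ s * y) =
        k ^ (j + s) * y by rw [pow_add, ← mul_assoc, ← mul_assoc, ← mul_pow, ← hk']])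
    rwa [mul_add, add_assoc, Nat.div_add_mod, show k ^ s * (q ^ i * k' ^ j * y) +
      (q ^ i * (ρ / p ^ j) + c') = q ^ i * (k' ^ j * k ^ s * y + ρ / p ^ j) + c' by ring]
  choose g hg using h1
  obtain ⟨C, hC⟩ := pigeon (S → Prop)
  obtain ⟨n, hn, han⟩ := hinf (k ^ (2 * C))
  let F : ℕ → ℕ × ℕ := fun s => g^[s] (2 * C, n % k ^ (2 * C))
  have hF : ∀ s, F (s + 1) = g (F s) := fun s => Function.iterate_succ_apply' _ _ _
  have h2 : ∀ s ≤ C, (F s).2 < k ^ (F s).1 ∧ 2 * C ≤ (F s).1 + 2 * s ∧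
      ∃ y, 1 ≤ y ∧ ap a (k ^ (F s).1) (F s).2 y := by
    intro s hs
    induction s with
    | zero =>
      refine ⟨Nat.mod_lt _ (by positivity), le_rfl, n / k ^ (2 * C),
        Nat.div_pos hn (by positivity), ?_⟩
      simpa [F, ap, Nat.div_add_mod] using han
    | succ s ih =>
      obtain ⟨-, a2, y, a3, a4⟩ := ih (by omega)
      obtain ⟨b1, b2, I, J, e, -, b3⟩ := hg (F s) (by omega)
      rw [hF]
      refine ⟨b1, by omega, _, ?_, b3 y a4⟩
      have : 0 < q ^ I * k' ^ J * y := by positivity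
      omega
  have h3 : ∀ s d, s + d + 1 ≤ C →
      R (ap a (k ^ (F s).1) (F s).2) (ap a (k ^ (F (s + d + 1)).1) (F (s + d + 1)).2) := by
    intro s d hd
    induction d with
    | zero =>
      rw [hF]
      exact (hg (F s) (by have := (h2 s (by omega)).2.1; omega)).2.2
    | succ d ih =>
      obtain ⟨I, J, e, a1, a2⟩ := ih (by omega)
      obtain ⟨I', J', e', -, a3⟩ :=
        (hg (F (s + d + 1)) (by have := (h2 (s + d + 1) (by omega)).2.1; omega)).2.2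
      refine ⟨I + I', J + J', q ^ I' * k' ^ J' * e + e', by omega, fun y hy => ?_⟩
      have := a3 _ (a2 y hy)
      rw [← hF] at this
      rwa [show q ^ (I + I') * k' ^ (J + J') * y + (q ^ I' * k' ^ J' * e + e') =
        q ^ I' * k' ^ J' * (q ^ I * k' ^ J * y + e) + e' by ring]
  obtain ⟨s, t, a1, a2, a3⟩ := hC fun s => kerT σ (ap a (k ^ (F s).1) (F s).2)
  obtain ⟨d, rfl⟩ := Nat.exists_eq_add_of_lt a1
  obtain ⟨b1, -, y, b2, b3⟩ := h2 s (by omega)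
  obtain ⟨I, J, e, a4, a5⟩ := h3 s d a2
  rw [← (ha.det hσ _ _ b1).ext (ha.det hσ _ _ (h2 _ a2).1) a3] at a5
  have hc : 2 ≤ q ^ I * k' ^ J :=
    (Nat.one_lt_pow (by omega) hq).trans_le (Nat.le_mul_of_pos_right _ (by positivity))
  refine Pre.of_ap b1 (pre_affine hk hc (fun s r hs => ⟨fun e => ?_, fun e => ?_⟩) b2 b3 a5)
  · have e' : (q ^ I * k' ^ J) ^ s = k ^ r := by exact_mod_cast e
    rw [hk', mul_pow, mul_pow, ← pow_mul, ← pow_mul] at e'
    have hI : I * s ≠ 0 := by positivity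
    rcases le_total r (J * s) with h4 | h4
    · obtain ⟨d, h5⟩ := Nat.exists_eq_add_of_le h4
      rw [h5, pow_add, mul_comm (k' ^ r), ← mul_assoc] at e'
      have h6 := Nat.eq_of_mul_eq_mul_right (by positivity) e'
      have h7 : q ∣ p ^ r := h6 ▸ (dvd_pow_self q hI).mul_right _
      exact h.qq.ne_one ((h.cop.symm.pow_right r).eq_one_of_dvd h7)
    · obtain ⟨d, h5⟩ := Nat.exists_eq_add_of_le h4
      rcases Nat.eq_zero_or_pos r with rfl | hr
      · have : 1 < q ^ (I * s) * k' ^ (J * s) :=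
          (Nat.one_lt_pow hI hq).trans_le (Nat.le_mul_of_pos_right _ (by positivity))
        simp only [pow_zero] at e'
        omega
      · nth_rw 2 [h5] at e'
        rw [pow_add, mul_comm (k' ^ (J * s)), ← mul_assoc] at e'
        have h6 := Nat.eq_of_mul_eq_mul_right (by positivity) e'
        have h7 : p ∣ q ^ (I * s) := h6 ▸ (dvd_pow_self p hr.ne').mul_right _
        exact h.pp.ne_one ((h.cop.pow_right _).eq_one_of_dvd h7)
  · have e' : (q ^ I * k' ^ J) ^ s * k ^ r = 1 := by exact_mod_cast e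
    have := Nat.one_lt_pow hs.ne' hc
    have := Nat.eq_one_of_mul_eq_one_right e'
    omega

lemma pump [Finite S] (hk : 2 ≤ k) (hσ : Aut k σ) (ha : Dz σ a) (hinf : ∀ N, ∃ n, N ≤ n ∧ a n) :
    ∃ (l β : ℕ) (γ : ℤ) (x : ℕ → ℕ), 1 ≤ l ∧ 0 < β ∧ ∀ t, a (x t) ∧
      (((k : ℤ) ^ l - 1) * x t = β * (k ^ l) ^ t + γ) := by
  obtain ⟨C, hC⟩ := pigeon S
  obtain ⟨n, hn, han⟩ := hinf (k ^ C)
  obtain ⟨i, j, h1, h2, h3⟩ := hC fun j => σ (n / k ^ j)
  obtain ⟨d, rfl⟩ := Nat.exists_eq_add_of_lt h1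
  set y := n / k ^ (i + d + 1) with hy
  have hy1 : 1 ≤ y := Nat.div_pos ((Nat.pow_le_pow_right (by omega) h2).trans hn) (by positivity)
  set v := n / k ^ i % k ^ (d + 1) with hv
  have hv1 : v < k ^ (d + 1) := Nat.mod_lt _ (by positivity)
  have h4 : k ^ (d + 1) * y + v = n / k ^ i := by
    rw [hy, hv, add_assoc, pow_add k i, ← Nat.div_div_eq_div_mul, Nat.div_add_mod]
  let Y : ℕ → ℕ := fun t => (fun Y => k ^ (d + 1) * Y + v)^[t] y
  have hY : ∀ t, Y (t + 1) = k ^ (d + 1) * Y t + v := fun t => Function.iterate_succ_apply' _ _ _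
  have h5 : 1 < k ^ (d + 1) := Nat.one_lt_pow (by omega) hk
  have h6 : ∀ t, σ (Y t) = σ y ∧ ((k : ℤ) ^ (d + 1) - 1) * Y t + v =
      (((k : ℤ) ^ (d + 1) - 1) * y + v) * (k ^ (d + 1)) ^ t := by
    intro t
    induction t with
    | zero => exact ⟨rfl, by simp [Y]⟩
    | succ t ih =>
      rw [hY]
      refine ⟨(hσ.pow _ hv1 ih.1).trans (h4 ▸ h3), ?_⟩
      push_cast
      linear_combination (k : ℤ) ^ (d + 1) * ih.2
  refine ⟨d + 1, k ^ i * ((k ^ (d + 1) - 1) * y + v),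
    ((k : ℤ) ^ (d + 1) - 1) * (n % k ^ i : ℕ) - k ^ i * v, fun t => k ^ i * Y t + n % k ^ i,
    by omega, ?_, fun t => ⟨?_, ?_⟩⟩
  · have : 0 < (k ^ (d + 1) - 1) * y := Nat.mul_pos (by omega) hy1
    positivity
  · refine ha.det hσ i _ (Nat.mod_lt _ (by positivity)) (n / k ^ i) _ (h3.trans (h6 t).1.symm) ?_
    simpa [ap, Nat.div_add_mod] using han
  · generalize n % k ^ i = z
    push_cast [Nat.cast_sub h5.le]
    linear_combination (k : ℤ) ^ i * (h6 t).2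

lemma Sys.pre_cop [Finite S] (h : Sys p q u w a) (hk : 2 ≤ k) (hσ : Aut k σ) (ha : Dz σ a)
    (hinf : ∀ N, ∃ n, N ≤ n ∧ a n) (hpk : k.Coprime p) : Pre k a := by
  intro Y _
  obtain ⟨l, β, γ, x, hl, hβ, hx⟩ := pump hk hσ ha hinf
  have hK : 2 ≤ k ^ l := Nat.one_lt_pow (by omega) hk
  obtain ⟨E, hE⟩ := pow_dense h.pp hK (hpk.pow_left l)
  obtain ⟨b, β', hβ', hb⟩ := Nat.exists_eq_pow_mul_and_not_dvd hβ.ne' p h.pp.ne_one
  obtain ⟨v, κ, hκ, hv⟩ := Nat.exists_eq_pow_mul_and_not_dvd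
    (show k ^ l - 1 ≠ 0 by omega) p h.pp.ne_one
  have hv' : (k : ℤ) ^ l - 1 = p ^ v * κ := by exact_mod_cast (by
    rw [← Nat.cast_pow, ← Nat.cast_pred (by omega), hv] : (k : ℤ) ^ l - 1 = (p ^ v * κ : ℕ))
  obtain ⟨J, I, c', hJ, hI⟩ := h.absorb (b + E) (x 0)
  obtain ⟨s, rfl⟩ := Nat.exists_eq_add_of_le hJ
  obtain ⟨hu2, hw2, huw⟩ := h.facts
  have hp := h.pp.pos
  have hq := h.qq.pos
  have hK1 : (0 : ℝ) < (k : ℝ) ^ l - 1 := by
    have : (2 : ℝ) ≤ (k : ℝ) ^ l := by exact_mod_cast hK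
    linarith
  set J := b + E + s with hJ
  set lam : ℝ := q ^ I / p ^ J * (β / ((k : ℝ) ^ l - 1)) with hlam
  have hlam0 : 0 < lam := by positivity
  obtain ⟨j, -, b0, h2, h3⟩ := rot (by positivity) (by exact_mod_cast hk)
    (ind_frac (k := k) hu2 hw2 huw) (α := (Y + 1 / 3) / lam) (β := (Y + 2 / 3) / lam)
    (by positivity) (by gcongr; norm_num) 0
  rw [div_lt_iff₀ hlam0] at h2
  rw [lt_div_iff₀ hlam0] at h3
  obtain ⟨ju, -, hu⟩ := h.hu
  have hcop : IsCoprime ((q : ℤ) ^ I) ((u : ℤ) ^ j) := by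
    rw [hu]
    exact_mod_cast Nat.isCoprime_iff_coprime.2 ((h.cop.symm.pow_left I).pow_right _ |>.pow_right j)
  obtain ⟨μ0, μ1, hμ⟩ := hcop
  obtain ⟨ω, ω1, hω⟩ : IsCoprime (β' : ℤ) ((p : ℤ) ^ (J + ju * j + v)) := by
    exact_mod_cast Nat.isCoprime_iff_coprime.2
      (((Nat.Prime.coprime_iff_not_dvd h.pp).2 hβ').symm.pow_right _)
  set c := x 0 % p ^ J with hc
  set C0 : ℝ := ((w : ℝ) / u) ^ j * (q ^ I * (γ / ((k : ℝ) ^ l - 1) - c) / p ^ J + c') with hC0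
  have hwu : 0 < ((w : ℝ) / u) ^ j * lam := by positivity
  obtain ⟨T, hT⟩ := exists_nat_ge ((3 * |C0| + 1) * (Y + 1) / (((w : ℝ) / u) ^ j * lam))
  have hx0 : (x 0 : ℤ) = p ^ J * (x 0 / p ^ J : ℕ) + c := by
    exact_mod_cast (Nat.div_add_mod (x 0) (p ^ J)).symm
  obtain ⟨t, ht, d, hd⟩ := hE (ω * ((k : ℤ) ^ l - 1) * (p ^ s * (-μ0 * c' - (x 0 / p ^ J : ℕ))))
    (J + ju * j + v) T
  have h4 : (p : ℤ) ^ (J + ju * j) ∣ x t - (p ^ J * (-μ0 * c') + c) := by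
    have h5 : IsCoprime ((p : ℤ) ^ (J + ju * j)) κ := by
      exact_mod_cast Nat.isCoprime_iff_coprime.2
        (((Nat.Prime.coprime_iff_not_dvd h.pp).2 hκ).pow_left _)
    refine h5.dvd_of_dvd_mul_left ((mul_dvd_mul_iff_left (a := (p : ℤ) ^ v) (by positivity)).1 ?_)
    rw [← mul_assoc, ← hv', ← pow_add, add_comm v]
    have e0 := (hx 0).2
    have et := (hx t).2
    have eb : (β : ℤ) = p ^ b * β' := by exact_mod_cast hb
    have eJ : (p : ℤ) ^ J = p ^ b * p ^ E * p ^ s := by rw [hJ]; ring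
    generalize x 0 / p ^ J = m0 at hd hx0
    refine ⟨β * d - ω1 * ((k : ℤ) ^ l - 1) * p ^ J * (-μ0 * c' - m0), ?_⟩
    push_cast at hd
    linear_combination et - e0 + ((k : ℤ) ^ l - 1) * hx0 + β * hd +
      (p ^ E * ω * ((k : ℤ) ^ l - 1) * p ^ s * (-μ0 * c' - m0)) * eb -
      β' * ω * ((k : ℤ) ^ l - 1) * (-μ0 * c' - m0) * eJ +
      ((k : ℤ) ^ l - 1) * (-μ0 * c' - m0) * p ^ J * hω
  obtain ⟨d', hd'⟩ := h4
  have h5 : x t % p ^ J = c := by
    have : (x t : ℤ) ≡ c [ZMOD ((p ^ J : ℕ) : ℤ)] :=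
      (Int.modEq_iff_dvd.2 ⟨-(p ^ (ju * j) * d' - μ0 * c'), by
        push_cast
        linear_combination -hd'⟩)
    have h6 : x t ≡ c [MOD p ^ J] := Int.natCast_modEq_iff.1 this
    rw [h6, hc, Nat.mod_mod]
  have h6 : x t = p ^ J * (x t / p ^ J) + c := by rw [← h5, Nat.div_add_mod]
  generalize x t / p ^ J = m at h6
  have h7 : (m : ℤ) = u ^ j * d' - μ0 * c' := by
    apply mul_left_cancel₀ (show (p : ℤ) ^ J ≠ 0 by positivity)
    have : (x t : ℤ) = p ^ J * m + c := by exact_mod_cast h6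
    rw [hu]
    push_cast
    linear_combination hd' - this
  obtain ⟨m', hm'⟩ : u ^ j ∣ q ^ I * m + c' := by
    rw [← Int.natCast_dvd_natCast]
    refine ⟨q ^ I * d' + μ1 * c', ?_⟩
    push_cast
    linear_combination q ^ I * h7 - c' * hμ
  have h8 := h.pow j m' (by rw [add_zero, ← hm']; exact hI m (h6 ▸ (hx t).1))
  have h9 : ((w ^ j * m' + 0 : ℕ) : ℝ) = ((w : ℝ) / u) ^ j * lam * (k ^ l) ^ t + C0 := by
    have e1 : (q : ℝ) ^ I * m + c' = u ^ j * m' := by exact_mod_cast hm'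
    have e2 : (x t : ℝ) = p ^ J * m + c := by exact_mod_cast h6
    have e3 : ((k : ℝ) ^ l - 1) * x t = β * (k ^ l) ^ t + γ := by exact_mod_cast (hx t).2
    have e4 : (m' : ℝ) = (q ^ I * m + c') / u ^ j := by rw [e1]; field_simp
    have e5 : (m : ℝ) = ((β * (k ^ l) ^ t + γ) / (k ^ l - 1) - c) / p ^ J := by
      rw [← e3, e2]
      field_simp
      ring
    push_cast
    rw [e4, e5, hlam, hC0, div_pow]
    field_simp
    ring
  have h10 : ((k : ℝ) ^ l) ^ t * k ^ (b0 - (l * t : ℕ)) = k ^ b0 := by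
    rw [zpow_sub₀ (by positivity), zpow_natCast, pow_mul]
    field_simp
  obtain ⟨τ, h11⟩ := hit hk (Y := Y) (n := w ^ j * m' + 0)
    (x := ((w : ℝ) / u) ^ j * lam * (k ^ l) ^ t) (C := |C0|) (b := b0 - (l * t : ℕ))
    (by rw [mul_assoc, h10]; linarith) (by rw [mul_assoc, h10]; linarith)
    (by rw [h9]; simp) (by
      rw [div_le_iff₀' hwu] at hT
      refine hT.trans ?_
      gcongr
      exact_mod_cast ht.trans (Nat.lt_pow_self hK).le)
  exact ⟨τ, _, h8, h11⟩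

lemma Sys.pos [Finite S] (h : Sys p q u w a) (hk : 2 ≤ k) (hσ : Aut k σ) (ha : Dz σ a)
    (hinf : ∀ N, ∃ n, N ≤ n ∧ a n) (hU : ∀ M ρ, 0 < M → Up (ap a M ρ) D) : 0 < D := by
  have h1 : Pre k a := by
    by_cases hp : p ∣ k
    · exact h.pre_dvd hk hσ ha hinf hp
    · exact h.pre_cop hk hσ ha hinf ((Nat.Prime.coprime_iff_not_dvd h.pp).2 hp).symm
  have h2 : ∀ s, ∃ M ρ, 0 < M ∧ ∀ y, 1 ≤ y → σ y = s → ap a M ρ y := by
    intro s
    by_cases hs : ∃ Y, 1 ≤ Y ∧ σ Y = s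
    · obtain ⟨Y, hY, rfl⟩ := hs
      obtain ⟨τ, n, a1, a2, a3⟩ := h1 Y hY
      obtain ⟨j, rfl⟩ := Nat.exists_eq_add_of_le a2
      rw [mul_add_one] at a3
      exact ⟨k ^ τ, j, by positivity, fun y _ e => ha.det hσ τ j (by omega) _ _ e.symm a1⟩
    · exact ⟨1, 0, one_pos, fun y h1 h2 => absurd ⟨y, h1, h2⟩ hs⟩
  choose M ρ h3 h4 using h2
  exact pos_of_cover (fun s => hU (M s) (ρ s) (h3 s)) fun y hy => ⟨σ y, h4 _ y hy rfl⟩

end Pool.Agent.P.MP_05c0aa_nt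
end

-- part Pool.Agent.P.MP_05c0aa_nt.Full
section

/-! Closed automatic sets contain long progressions of bounded difference. -/

namespace Pool.Agent.P.MP_05c0aa_nt

variable {S : Type} {k : ℕ} {σ : ℕ → S} {a : ℕ → Prop} {p q u w : ℕ} {D : ℝ}

/-- arbitrarily long progressions of difference `M` -/
def Lg (a : ℕ → Prop) (M : ℕ) : Prop := ∀ L, ∃ n, ∀ l < L, a (n + l * M)

lemma Sys.tight (h : Sys p q u w a) (hU : ∀ M ρ, 0 < M → Up (ap a M ρ) D) {M ρ : ℕ} (hM : 0 < M)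
    (hD : D ≤ bd (ap a M ρ)) : ∃ M1, 0 < M1 ∧ ∀ i, ∃ μ < M1, ∀ M0, M1 ∣ M0 → ∀ c < M0,
      ∀ c' < M0, c % M1 = μ → c' % M1 = μ → ∀ ψ, Up ψ D →
      (∀ m, ap a (u ^ i * M0) (u ^ i * c) m → ψ m) → (∀ m, ap a (u ^ i * M0) (u ^ i * c') m → ψ m) →
      D ≤ bd fun m => ap a (u ^ i * M0) (u ^ i * c) m ∧ ap a (u ^ i * M0) (u ^ i * c') m := by
  obtain ⟨M1, ρ1, h1, h2, h3, h4⟩ := h.core hU hM hD
  refine ⟨M1, h1, fun i => ?_⟩
  have hu := h.facts.1
  have h5 : (u ^ i).Coprime M1 := by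
    obtain ⟨j, -, rfl⟩ := h.hu
    exact (h2.symm.pow_left j).pow_left i
  obtain ⟨μ, h6, h7⟩ := Nat.exists_mul_mod_eq_of_coprime ρ1 h5 h1.ne'
  refine ⟨μ, h6, ?_⟩
  rintro _ ⟨M', rfl⟩ c hc c' hc' e e' ψ hψ
  have h8 : ∀ c < M1 * M', c % M1 = μ → u ^ i * c / M1 < u ^ i * M' ∧
      ap a (u ^ i * (M1 * M')) (u ^ i * c) = ap (ap a M1 ρ1) (u ^ i * M') (u ^ i * c / M1) := by
    intro c hc e
    rw [mul_left_comm]
    refine ap_sub a (by rw [mul_left_comm]; gcongr) ?_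
    rw [← Nat.mod_eq_of_lt h3, ← h7, ← e, Nat.mul_mod_mod]
  have hM' : 0 < M' := Nat.pos_of_ne_zero fun e => by simp [e] at hc
  rw [(h8 c hc e).2, (h8 c' hc' e').2]
  exact le_bd_and h4 (fun t _ => by rw [ap_ap]; exact hU _ _ (by positivity)) (h8 c hc e).1
    (h8 c' hc' e').1 hψ

lemma longA [Finite S] (hk : 2 ≤ k) (hσ : Aut k σ) (ha : Dz σ a) (hD : 0 < D)
    (hU : ∀ M ρ, 0 < M → Up (ap a M ρ) D) {sh lo M1 : ℕ} (h1 : 0 < sh) (h2 : sh < lo)
    (hc : lo.Coprime k) (hM1 : 0 < M1) (key : ∀ i, ∃ μ < M1, ∀ M0, M1 ∣ M0 → ∀ c < M0,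
      ∀ c' < M0, c % M1 = μ → c' % M1 = μ →
      ap a (sh ^ i * M0) (sh ^ i * c) = ap a (sh ^ i * M0) (sh ^ i * c') →
      D ≤ bd fun m => ap a (lo ^ i * M0) (lo ^ i * c) m ∧ ap a (lo ^ i * M0) (lo ^ i * c') m) :
    ∃ M, 0 < M ∧ Lg a M := by
  obtain ⟨H, hH, hHk, hP⟩ := exists_pref hσ.pair hk
  obtain ⟨r2, g, hg, hgk, hd⟩ := split k hM1
  set M2 := k ^ r2 * H with hM2
  set M0 := k ^ r2 * (g * H) with hM0
  have hM20 : 0 < M2 := by positivity
  have hM00 : 0 < M0 := by positivity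
  have hd0 : M1 ∣ M0 := by rw [hM0, ← mul_assoc]; exact hd.mul_right _
  have : NeZero M2 := ⟨hM20.ne'⟩
  obtain ⟨C, hC⟩ := pigeon ((S → Prop) × (S → Prop) × ZMod M2)
  obtain ⟨i, hi⟩ : ∃ i, 2 * C * M0 * sh ^ i ≤ lo ^ i := by
    obtain ⟨i, hi⟩ := pow_unbounded_of_one_lt ((2 * C * M0 : ℕ) : ℝ)
      (show (1 : ℝ) < lo / sh from (one_lt_div (by positivity)).2 (by exact_mod_cast h2))
    rw [div_pow, lt_div_iff₀ (by positivity)] at hi
    exact ⟨i, by exact_mod_cast hi.le⟩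
  obtain ⟨r, hr⟩ : ∃ r, 2 * sh ^ i * M0 * (1 + C) < k ^ r := ⟨_, Nat.lt_pow_self hk⟩
  obtain ⟨μ, hμ, key⟩ := key i
  have hμ0 : μ < M0 := hμ.trans_le (Nat.le_of_dvd hM00 hd0)
  have hlo : 0 < lo ^ i := pow_pos (by omega) i
  have hsh : 0 < sh ^ i := pow_pos h1 i
  have hK : 0 < k ^ r := by positivity
  set v := k ^ r / lo ^ i with hv
  have hv1 : lo ^ i * v ≤ k ^ r := Nat.mul_div_le _ _
  have hv2 : k ^ r < lo ^ i * (v + 1) := Nat.lt_mul_div_succ _ hlo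
  let c : ℕ → ℕ := fun l => μ + l * (M0 * (v + 1))
  have hc1 : ∀ l ≤ C, sh ^ i * c l < k ^ r := by
    intro l hl
    have e1 : c l ≤ M0 + C * (M0 * (v + 1)) := add_le_add hμ0.le (by gcongr)
    have e2 := Nat.mul_le_mul_left (sh ^ i) e1
    have e3 := Nat.mul_le_mul_right v hi
    nlinarith
  have hc2 : ∀ l ≤ C, c l < k ^ r * M0 := fun l hl =>
    ((Nat.le_mul_of_pos_left _ hsh).trans_lt (hc1 l hl)).trans_le (Nat.le_mul_of_pos_right _ hM00)
  have hc3 : ∀ l, c l % M1 = μ := fun l => by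
    obtain ⟨d, hd⟩ := hd0
    rw [show c l = μ + M1 * (l * d * (v + 1)) by simp only [c]; rw [hd]; ring,
      Nat.add_mul_mod_self_left, Nat.mod_eq_of_lt hμ]
  obtain ⟨l, l', h3, h4, h5⟩ := hC fun l => (kerT σ (ap a (k ^ r) (sh ^ i * c l)),
    kerT σ (ap a (k ^ r) (lo ^ i * c l % k ^ r)), (lo ^ i * c l / k ^ r : ℕ))
  simp only [Prod.mk.injEq] at h5
  obtain ⟨a1, a2, a3⟩ := h5
  have a1 := (ha.det hσ r _ (hc1 l (by omega))).ext (ha.det hσ r _ (hc1 l' h4)) a1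
  have hb := ha.det hσ r _ (Nat.mod_lt (lo ^ i * c l) hK)
  have a2 := hb.ext (ha.det hσ r _ (Nat.mod_lt (lo ^ i * c l') hK)) a2
  have e1 : ∀ c, ap a (sh ^ i * (k ^ r * M0)) (sh ^ i * c) =
      ap (ap a (k ^ r) (sh ^ i * c)) (sh ^ i * M0) 0 := fun c => by
    rw [ap_ap, mul_left_comm, mul_zero, zero_add]
  have e2 : ∀ c, ap a (lo ^ i * (k ^ r * M0)) (lo ^ i * c) =
      ap (ap a (k ^ r) (lo ^ i * c % k ^ r)) (lo ^ i * M0) (lo ^ i * c / k ^ r) := fun c => by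
    rw [ap_ap, mul_left_comm, Nat.div_add_mod]
  have h6 := key (k ^ r * M0) (hd0.mul_left _) _ (hc2 l (by omega)) _ (hc2 l' h4) (hc3 l) (hc3 l')
    (by rw [e1, e1, a1])
  rw [e2, e2, ← a2] at h6
  have h7 : lo ^ i * c l / k ^ r < lo ^ i * c l' / k ^ r := by
    rw [Nat.lt_iff_add_one_le, ← Nat.add_div_right _ hK]
    refine Nat.div_le_div_right ?_
    obtain ⟨d, rfl⟩ := Nat.exists_eq_add_of_lt h3
    have e3 : c (l + d + 1) = c l + (d + 1) * (M0 * (v + 1)) := by simp only [c]; ring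
    have e4 : v + 1 ≤ (d + 1) * (M0 * (v + 1)) :=
      (Nat.le_mul_of_pos_left _ hM00).trans (Nat.le_mul_of_pos_left _ (by omega))
    have e5 := Nat.mul_le_mul_left (lo ^ i) e4
    rw [e3, mul_add (lo ^ i) (c l)]
    omega
  obtain ⟨δ, hδ⟩ := (Nat.modEq_iff_exists_eq_add h7.le).1 ((ZMod.natCast_eq_natCast_iff _ _ _).1 a3)
  have hδ0 : 0 < δ := Nat.pos_of_ne_zero fun e => by simp [e] at hδ; omega
  rw [hδ] at h6
  generalize lo ^ i * c l / k ^ r = e at h6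
  generalize lo ^ i * c l % k ^ r = ρ at h6 hb
  have h8 := stab hσ.pair hk hP (det_and hσ hb (Nat.lt_pow_self hk (n := M2 * δ)).le)
    (g := lo ^ i * (g * H)) (by positivity) ((hc.pow_left i).mul_left (hgk.mul_left hHk))
    ((dvd_mul_left H g).mul_left _) r2 e
  have h9 := long_of_and (φ := ap (ap a (k ^ r) ρ) M2 e) (e := δ) hD
    (by rw [ap_ap]; exact hU _ _ (by positivity)) (h6.trans (le_trans (bd_mono 0 fun m hm => ?_)
      (h8.trans (bd_mono 0 fun m hm => ?_))))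
  · refine ⟨k ^ r * M2 * δ, by positivity, fun L => ?_⟩
    obtain ⟨m, hm⟩ := h9 L
    refine ⟨k ^ r * (M2 * m + e) + ρ, fun l hl => ?_⟩
    have := hm l hl
    simp only [ap] at this
    convert this using 1
    ring
  · simp only [ap, add_zero] at hm ⊢
    rw [show k ^ r2 * (lo ^ i * (g * H)) = lo ^ i * M0 by rw [hM0]; ring, add_assoc]
    exact hm
  · simp only [ap, add_zero] at hm ⊢
    rwa [show M2 * (m + δ) + e = M2 * m + e + M2 * δ by ring]

lemma Dz.iff' {T : Type} {τ : ℕ → T} {φ : ℕ → Prop} (h : Dz τ φ) {x y : ℕ} (e : τ x = τ y) :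
    φ x ↔ φ y := ⟨h _ _ e, h _ _ e.symm⟩

/-- two nearly equal block lengths give a local period -/
lemma krebs (T : Type) [Finite T] : ∃ C : ℕ, ∀ (τ : ℕ → T) (φ ψ : ℕ → Prop) (Q δ X : ℕ),
    0 < δ → (C + 1) * δ ≤ Q → (∀ j < Q + δ, Dz τ (ap φ (Q + δ) j)) → (∀ j < Q, Dz τ (ap ψ Q j)) →
    (∀ j < (C + 2) * (Q + δ), φ (X + j) ↔ ψ (X + j)) → ∃ W π, X ≤ W ∧
      W + (Q + δ) ≤ X + (C + 2) * (Q + δ) ∧ δ ≤ π ∧ π ≤ C * δ ∧
      ∀ z < Q + δ, φ (W + z) ↔ φ (W + z + π) := by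
  obtain ⟨C, hC⟩ := pigeon (T × (Fin 4 → T))
  refine ⟨C, fun τ φ ψ Q δ X hδ hQ h1 h2 h3 => ?_⟩
  have hQ0 : 0 < Q := by nlinarith
  obtain ⟨x, a1, a2⟩ : ∃ x, X ≤ (Q + δ) * x ∧ (Q + δ) * x ≤ X + (Q + δ) :=
    ⟨X / (Q + δ) + 1, (Nat.lt_mul_div_succ X (by omega)).le, by
      rw [mul_add_one]
      exact Nat.add_le_add_right (Nat.mul_div_le _ _) _⟩
  obtain ⟨x', s, a3, a4⟩ : ∃ x' s, s < Q ∧ (Q + δ) * x = Q * x' + s :=
    ⟨_, _, Nat.mod_lt _ hQ0, (Nat.div_add_mod _ _).symm⟩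
  obtain ⟨i, j, b1, b2, b3⟩ := hC fun j => (τ (x + j), fun e => τ (x' + j + e))
  obtain ⟨b3, b4⟩ := Prod.mk.inj b3
  obtain ⟨d, rfl⟩ := Nat.exists_eq_add_of_lt b1
  have h4 : ∀ n, X ≤ n → n < X + (C + 2) * (Q + δ) → (φ n ↔ ψ n) := by
    intro n c1 c2
    obtain ⟨j, rfl⟩ := Nat.exists_eq_add_of_le c1
    exact h3 j (by omega)
  have c0 : (Q + δ) * (i + d + 1) ≤ (Q + δ) * C := by gcongr
  have c1 : δ * (i + d + 1) ≤ δ * C := by gcongr
  refine ⟨(Q + δ) * (x + i), δ * (d + 1), by nlinarith, by nlinarith, by nlinarith, by nlinarith,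
    fun z hz => ?_⟩
  have c2 : (s + δ * (i + d + 1) + z) / Q < 4 := Nat.div_lt_of_lt_mul (by nlinarith)
  have c3 := (h2 _ (Nat.mod_lt (s + δ * (i + d + 1) + z) hQ0)).iff' (congrFun b4 ⟨_, c2⟩)
  have c4 := Nat.div_add_mod (s + δ * (i + d + 1) + z) Q
  simp only [ap] at c3
  refine ((h1 z hz).iff' b3).trans ?_
  rw [ap, h4 _ (by nlinarith) (by nlinarith), h4 _ (by nlinarith) (by nlinarith)]
  convert c3.symm using 2 <;> nlinarith

/-- a local period is compatible with a further block length -/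
lemma period2 (T : Type) [Finite T] : ∃ C : ℕ, ∀ (τ : ℕ → T) (φ : ℕ → Prop) (P' π W P L : ℕ),
    0 < π → π ≤ P' → (C + 2) * P' ≤ P → π + L * C * P' ≤ P → (∀ j < P', Dz τ (ap φ P' j)) →
    (∀ z < P, φ (W + z) ↔ φ (W + z + π)) → (∃ z < P, φ (W + z)) →
    ∃ j n, 1 ≤ j ∧ j ≤ C ∧ ∀ l < L, φ (n + l * (j * P')) := by
  obtain ⟨C, hC⟩ := pigeon T
  refine ⟨C, fun τ φ P' π W P L hπ h1 h2 h3 h4 h5 ⟨z0, h6, h7⟩ => ?_⟩
  have : NeZero π := ⟨hπ.ne'⟩
  let F : ZMod π → Prop := fun x => φ (W + x.val)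
  have hF : ∀ z < P, φ (W + z) ↔ F z := by
    intro z hz
    induction z using Nat.strong_induction_on with
    | _ z ih =>
      rcases Nat.lt_or_ge z π with h | h
      · simp only [F]
        rw [ZMod.val_natCast, Nat.mod_eq_of_lt h]
      · obtain ⟨z, rfl⟩ := Nat.exists_eq_add_of_le' h
        rw [← add_assoc, ← h5 z (by omega), ih z (by omega) (by omega)]
        simp
  obtain ⟨x, z1, a1, a2⟩ : ∃ x z1, P' * x = W + z1 ∧ z1 ≤ P' := by
    obtain ⟨z1, hz⟩ := Nat.exists_eq_add_of_le (Nat.lt_mul_div_succ W (show 0 < P' by omega)).le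
    refine ⟨_, z1, hz, ?_⟩
    have := Nat.mul_div_le W P'
    rw [mul_add_one] at hz
    omega
  obtain ⟨i, j, b1, b2, b3⟩ := hC fun j => τ (x + j)
  obtain ⟨d, rfl⟩ := Nat.exists_eq_add_of_lt b1
  have c0 : P' * (i + d + 1) ≤ P' * C := by gcongr
  have h8 : ∀ y, F y ↔ F (y + ((d + 1) * P' : ℕ)) := by
    intro y
    have c1 := ZMod.val_lt (y - ((z1 + P' * i : ℕ) : ZMod π))
    have c2 := (h4 _ (c1.trans_le h1)).iff' b3
    have c3 := ZMod.natCast_zmod_val (y - ((z1 + P' * i : ℕ) : ZMod π))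
    generalize (y - ((z1 + P' * i : ℕ) : ZMod π)).val = z at c1 c2 c3
    simp only [ap] at c2
    rw [show P' * (x + i) + z = W + (z1 + P' * i + z) by rw [mul_add, a1]; ring,
      show P' * (x + (i + d + 1)) + z = W + (z1 + P' * (i + d + 1) + z) by rw [mul_add, a1]; ring,
      hF _ (by nlinarith), hF _ (by nlinarith)] at c2
    convert c2 using 2
    · push_cast at c3 ⊢
      linear_combination -c3
    · push_cast at c3 ⊢
      linear_combination -c3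
  refine ⟨d + 1, W + z0 % π, by omega, by omega, fun l hl => ?_⟩
  have c1 := Nat.mod_lt z0 hπ
  have c2 : l * ((d + 1) * P') ≤ L * (C * P') := by gcongr; omega
  rw [add_assoc, hF _ (by nlinarith)]
  clear hl c2
  induction l with
  | zero => simpa using (hF _ h6).1 h7
  | succ l ih =>
    convert (h8 _).1 ih using 1
    push_cast
    ring

lemma fix_diff [Finite S] (hk : 0 < k) (hσ : Aut k σ) (ha : Dz σ a) {C g : ℕ} (hg : 0 < g)
    (h : ∀ L, ∃ n t j, 1 ≤ j ∧ j ≤ C ∧ ∀ l < L, a (n + l * (k ^ t * (j * g)))) :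
    ∃ M, 0 < M ∧ Lg a M := by
  choose n t j h1 h2 h3 using h
  obtain ⟨s, hs⟩ := pigeon_inf fun L => (kerT σ (ap a (k ^ t L) (n L % k ^ t L)),
    (⟨j L, Nat.lt_succ_of_le (h2 L)⟩ : Fin (C + 1)))
  obtain ⟨L0, -, h4⟩ := hs 0
  have := h1 L0
  refine ⟨k ^ t L0 * (j L0 * g), by positivity, fun L => ?_⟩
  obtain ⟨L1, h5, h6⟩ := hs L
  obtain ⟨a1, a2⟩ := Prod.mk.inj (h6.trans h4.symm)
  have a1 := (ha.det hσ _ _ (Nat.mod_lt _ (by positivity))).ext
    (ha.det hσ _ _ (Nat.mod_lt _ (by positivity))) a1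
  have a2 : j L1 = j L0 := congrArg Fin.val a2
  refine ⟨k ^ t L0 * (n L1 / k ^ t L1) + n L0 % k ^ t L0, fun l hl => ?_⟩
  have a3 : ap a (k ^ t L1) (n L1 % k ^ t L1) (n L1 / k ^ t L1 + l * (j L1 * g)) := by
    have := h3 L1 l (by omega)
    rw [← Nat.div_add_mod (n L1) (k ^ t L1)] at this
    simp only [ap]
    convert this using 1
    ring
  rw [a1, a2] at a3
  simp only [ap] at a3
  convert a3 using 1
  ring

lemma blocks (hσ : Aut k σ) (hk : 0 < k) (ha : Dz σ a) {U c P r g : ℕ} (hc : c < U)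
    (e : U * P = k ^ r * g) : ∀ j < P, Dz (sup σ g) (ap (ap a U c) P j) := by
  intro j hj
  rw [ap_ap, e]
  refine dz_sup hσ hk ha ?_
  rw [← e]
  nlinarith

lemma Sys.longB [Finite S] (h : Sys p q u w a) (hk : 2 ≤ k) (hσ : Aut k σ) (ha : Dz σ a)
    (hD : 0 < D) (hU : ∀ M ρ, 0 < M → Up (ap a M ρ) D) {M1 : ℕ} (hM1 : 0 < M1)
    (key : ∀ i, ∃ μ < M1, ∀ M0, M1 ∣ M0 → 0 < M0 → D ≤ bd (ap a (u ^ i * M0) (u ^ i * μ)))
    (hp : p ∣ k) (hq : q ∣ k) : ∃ M, 0 < M ∧ Lg a M := by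
  obtain ⟨r2, g, hg, -, hd⟩ := split k hM1
  obtain ⟨C1, hC1⟩ := krebs (Fin g → S)
  obtain ⟨C2, hC2⟩ := period2 (Fin g → S)
  refine fix_diff (by omega) hσ ha (C := C2) hg fun L => ?_
  set M0 := k ^ r2 * g with hM0
  have hM00 : 0 < M0 := by positivity
  set N := (C1 + 1) * (1 + (L + 1) * (C2 + 2) * k) with hN
  obtain ⟨hu2, hw2, huw⟩ := h.facts
  obtain ⟨i, -, b, a1, a2⟩ := rot (x := (w : ℝ) / u) (by positivity) (by exact_mod_cast hk)
    (ind_frac (k := k) hu2 hw2 huw) (α := 1) (β := 1 + 1 / N) one_pos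
    (by simp only [lt_add_iff_pos_right]; positivity) 0
  obtain ⟨ju, -, hu⟩ := h.hu
  obtain ⟨jw, -, hw⟩ := h.hw
  obtain ⟨P0, hP0⟩ : u ^ i ∣ k ^ ((ju + jw) * i + b.toNat) := by
    rw [hu, ← pow_mul]
    exact (pow_dvd_pow_of_dvd hp _).trans (pow_dvd_pow _ (by nlinarith [Nat.zero_le b.toNat]))
  obtain ⟨Q0, hQ0⟩ : w ^ i ∣ k ^ ((ju + jw) * i + (-b).toNat) := by
    rw [hw, ← pow_mul]
    exact (pow_dvd_pow_of_dvd hq _).trans (pow_dvd_pow _ (by nlinarith [Nat.zero_le (-b).toNat]))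
  have a3 : ((w : ℝ) / u) ^ i * k ^ b = P0 / Q0 := by
    have e1 : (P0 : ℝ) = k ^ ((ju + jw) * i + b.toNat) / u ^ i := by
      rw [eq_div_iff (by positivity), mul_comm]
      exact_mod_cast hP0.symm
    have e2 : (Q0 : ℝ) = k ^ ((ju + jw) * i + (-b).toNat) / w ^ i := by
      rw [eq_div_iff (by positivity), mul_comm]
      exact_mod_cast hQ0.symm
    have e3 : (k : ℝ) ^ b = k ^ b.toNat / k ^ (-b).toNat := by
      rw [← zpow_natCast, ← zpow_natCast, ← zpow_sub₀ (by positivity), Int.toNat_sub_toNat_neg]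
    rw [e1, e2, e3, div_pow, pow_add, pow_add]
    field_simp
  generalize (ju + jw) * i + b.toNat = r at hP0
  generalize (ju + jw) * i + (-b).toNat = r' at hQ0
  have hQ1 : 0 < Q0 := Nat.pos_of_ne_zero fun e => by
    rw [e, mul_zero] at hQ0
    exact absurd hQ0 (by positivity)
  rw [a3, one_lt_div (by positivity)] at a1
  obtain ⟨δ, rfl⟩ := Nat.exists_eq_add_of_lt (show Q0 < P0 by exact_mod_cast a1)
  rw [add_assoc] at hP0 a3
  have a4 : N * (δ + 1) ≤ Q0 := by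
    rw [a3, div_lt_iff₀ (by positivity), add_mul, one_mul, one_div_mul_eq_div] at a2
    push_cast at a2
    have := (lt_div_iff₀' (by positivity)).1 (lt_of_add_lt_add_left a2)
    exact_mod_cast this.le
  obtain ⟨μ, hμ, key⟩ := key i
  have hμ0 : μ < M0 := hμ.trans_le (Nat.le_of_dvd hM00 hd)
  have hφ : ∀ m, ap a (u ^ i * M0) (u ^ i * μ) m → ap a (w ^ i * M0) (w ^ i * μ) m := by
    intro m hm
    simp only [ap, mul_assoc, ← mul_add] at hm ⊢
    exact h.pow i _ hm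
  obtain ⟨P₀, hP⟩ := good_window hD (key M0 hd hM00) (hU _ _ (by positivity)) hφ (C1 + 2)
  obtain ⟨K, R, hR, b1, b2⟩ : ∃ K R, K = k ^ R ∧ P₀ ≤ K ∧ Q0 + (δ + 1) ≤ K :=
    ⟨_, P₀ + (Q0 + (δ + 1)), rfl, by have := Nat.lt_pow_self hk (n := P₀ + (Q0 + (δ + 1))); omega,
      by have := Nat.lt_pow_self hk (n := P₀ + (Q0 + (δ + 1))); omega⟩
  have b3 : ∀ s, u ^ i * M0 * ((Q0 + (δ + 1)) * k ^ s) = k ^ (r2 + r + s) * g := fun s => by
    rw [pow_add, pow_add, hP0, hM0]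
    ring
  have b4 : ∀ s, ∀ j < (Q0 + (δ + 1)) * k ^ s,
      Dz (sup σ g) (ap (ap a (u ^ i * M0) (u ^ i * μ)) ((Q0 + (δ + 1)) * k ^ s) j) := fun s =>
    blocks hσ (by omega) ha (by gcongr) (b3 s)
  obtain ⟨X, b5, b6⟩ := hP (Q0 * K + (δ + 1) * K) (by nlinarith)
  have b7 : N * ((δ + 1) * K) ≤ Q0 * K := by rw [← mul_assoc]; gcongr
  have hK : 0 < K := by omega
  have b8 : 0 < (δ + 1) * K := by positivity
  obtain ⟨W, π, c1, c2, c3, c4, c5⟩ := hC1 (sup σ g) _ (ap a (w ^ i * M0) (w ^ i * μ)) (Q0 * K)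
    ((δ + 1) * K) X b8 (le_trans (by gcongr; exact Nat.le_mul_of_pos_right _ (by positivity)) b7)
    (by rw [← add_mul, hR]; exact b4 R)
    (blocks hσ (by omega) ha (r := r2 + r' + R) (by gcongr) (by
      rw [pow_add, pow_add, hQ0, hM0, hR]
      ring)) fun j hj => ⟨hφ _, b5 j hj⟩
  have c6 : K ≤ π := le_trans (Nat.le_mul_of_pos_left _ (by omega)) c3
  obtain ⟨s, c7, c8⟩ : ∃ s, π ≤ (Q0 + (δ + 1)) * k ^ s ∧ (Q0 + (δ + 1)) * k ^ s ≤ k * π := by
    have hex : ∃ s, π ≤ (Q0 + (δ + 1)) * k ^ s :=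
      ⟨π, (Nat.lt_pow_self hk).le.trans (Nat.le_mul_of_pos_left _ (by omega))⟩
    refine ⟨Nat.find hex, Nat.find_spec hex, ?_⟩
    rcases hs : Nat.find hex with _ | s
    · nlinarith
    · have := Nat.find_min hex (show s < Nat.find hex by omega)
      rw [pow_succ]
      nlinarith
  have c9 : (1 + (L + 1) * (C2 + 2) * k) * π ≤ Q0 * K := by
    refine le_trans ?_ b7
    rw [hN, mul_comm (C1 + 1), mul_assoc _ (C1 + 1)]
    exact Nat.mul_le_mul_left _ (by nlinarith)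
  have c10 := b3 s
  have c11 := b4 s
  generalize (Q0 + (δ + 1)) * k ^ s = P' at c7 c8 c10 c11
  have c12 : (L + 1) * (C2 + 2) * P' ≤ (L + 1) * (C2 + 2) * (k * π) := by gcongr
  obtain ⟨j, n, d1, d2, d3⟩ := hC2 (sup σ g) _ P' π W _ L (by omega) c7
    (by nlinarith [Nat.zero_le (L * (C2 + 2) * P')])
    (by nlinarith [Nat.zero_le (L * P'), Nat.zero_le (C2 * P')]) c11 c5 (b6 W c1 c2)
  refine ⟨u ^ i * M0 * n + u ^ i * μ, r2 + r + s, j, d1, d2, fun l hl => ?_⟩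
  have := d3 l hl
  simp only [ap] at this
  convert this using 1
  linear_combination l * j * c10.symm

theorem Sys.long [Finite S] (h : Sys p q u w a) (hk : 2 ≤ k) (hσ : Aut k σ) (ha : Dz σ a)
    (hinf : ∀ N, ∃ n, N ≤ n ∧ a n)
    (hc : u < w ∧ w.Coprime k ∨ w < u ∧ u.Coprime k ∨ p ∣ k ∧ q ∣ k) : ∃ M, 0 < M ∧ Lg a M := by
  obtain ⟨D, hU, M, ρ, hM, hD⟩ := exists_max hσ hk ha
  have hD0 := h.pos hk hσ ha hinf hU
  obtain ⟨M1, hM1, key⟩ := h.tight hU hM hD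
  obtain ⟨hu2, hw2, -⟩ := h.facts
  have hφ : ∀ i M0 c m, ap a (u ^ i * M0) (u ^ i * c) m → ap a (w ^ i * M0) (w ^ i * c) m := by
    intro i M0 c m hm
    simp only [ap, mul_assoc, ← mul_add] at hm ⊢
    exact h.pow i _ hm
  rcases hc with ⟨h1, h2⟩ | ⟨h1, h2⟩ | ⟨h1, h2⟩
  · refine longA hk hσ ha hD0 hU (by omega) h1 h2 hM1 fun i => ?_
    obtain ⟨μ, h3, h4⟩ := key i
    refine ⟨μ, h3, fun M0 a1 c a2 c' a3 a4 a5 a6 => ?_⟩
    exact (h4 M0 a1 c a2 c' a3 a4 a5 _ (hU _ _ (by have : 0 < M0 := by omega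
                                                   positivity)) (fun _ h => h)
      (fun _ h => a6 ▸ h)).trans (bd_mono 0 fun m hm => ⟨hφ _ _ _ _ hm.1, hφ _ _ _ _ hm.2⟩)
  · refine longA hk hσ ha hD0 hU (by omega) h1 h2 hM1 fun i => ?_
    obtain ⟨μ, h3, h4⟩ := key i
    refine ⟨μ, h3, fun M0 a1 c a2 c' a3 a4 a5 a6 => ?_⟩
    exact h4 M0 a1 c a2 c' a3 a4 a5 _ (hU _ _ (by have : 0 < M0 := by omega
                                                  positivity)) (hφ _ _ _)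
      (fun _ h => a6 ▸ hφ _ _ _ _ h)
  · refine h.longB hk hσ ha hD0 hU hM1 (fun i => ?_) h1 h2
    obtain ⟨μ, h3, h4⟩ := key i
    refine ⟨μ, h3, fun M0 a1 a2 => ?_⟩
    have a3 := h3.trans_le (Nat.le_of_dvd a2 a1)
    exact (h4 M0 a1 μ a3 μ a3 (Nat.mod_eq_of_lt h3) (Nat.mod_eq_of_lt h3) _
      (hU _ _ (by positivity)) (fun _ h => h) fun _ h => h).trans (bd_mono 0 fun m hm => hm.1)

end Pool.Agent.P.MP_05c0aa_nt
end

-- part Pool.Agent.P.MP_05c0aa_nt.Conn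
section

/-! A long progression of the set is carried onto a long progression of the complement. -/

namespace Pool.Agent.P.MP_05c0aa_nt

variable {S : Type} {k : ℕ} {σ : ℕ → S} {a b : ℕ → Prop} {p q u w : ℕ}

lemma solve {U W : ℕ} (hU : 0 < U) (hW : 0 < W) (h : U.Coprime W) (c e : ℕ) :
    ∃ μ ν, W * μ + c = U * ν + e := by
  have : NeZero U := ⟨hU.ne'⟩
  obtain ⟨v, hv⟩ := exists_inv h 1
  have h1 : e ≡ W * ((v * (e - c)).val + U * e) + c [MOD U] := by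
    rw [← ZMod.natCast_eq_natCast_iff]
    push_cast
    rw [ZMod.natCast_zmod_val, ZMod.natCast_self]
    linear_combination (c - e) * hv
  obtain ⟨ν, h2⟩ := (Nat.modEq_iff_exists_eq_add (by
    have : e ≤ W * (U * e) := (Nat.le_mul_of_pos_left _ hU).trans (Nat.le_mul_of_pos_left _ hW)
    rw [mul_add]
    omega)).1 h1
  exact ⟨_, ν, h2.trans (add_comm _ _)⟩

lemma Sys.lg_cop (h : Sys p q u w a) {M : ℕ} (hM : 0 < M) (hL : Lg a M) :
    ∃ M, 0 < M ∧ M.Coprime p ∧ Lg a M := by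
  obtain ⟨e, M', h1, rfl⟩ := Nat.exists_eq_pow_mul_and_not_dvd hM.ne' p h.pp.ne_one
  have hp := h.pp.pos
  have hq := h.qq.pos
  have h0 : 0 < M' := Nat.pos_of_mul_pos_left hM
  have hc := (Nat.Prime.coprime_iff_not_dvd h.pp).2 h1
  choose n hn using hL
  have : NeZero (p ^ e) := ⟨by positivity⟩
  obtain ⟨t, ht⟩ := pigeon_inf fun L => (n L : ZMod (p ^ e))
  obtain ⟨J, I, c', h2, h3⟩ := h.absorb e t.val
  obtain ⟨s, rfl⟩ := Nat.exists_eq_add_of_le h2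
  rw [Nat.mod_eq_of_lt (t.val_lt.trans_le (Nat.pow_le_pow_right hp h2))] at h3
  refine ⟨q ^ I * M', by positivity, (h.cop.symm.pow_left I).mul_left hc.symm, fun L => ?_⟩
  obtain ⟨L1, h4, h5⟩ := ht (p ^ s * (L + 1))
  have h6 : n L1 % p ^ e = t.val := by rw [← h5, ZMod.val_natCast]
  obtain ⟨P, hP⟩ := Nat.exists_eq_add_of_lt (pow_pos hp s)
  obtain ⟨l0, h7, h8⟩ := Nat.exists_mul_mod_eq_of_coprime (P * (n L1 / p ^ e))
    (hc.symm.pow_right s) (by positivity)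
  obtain ⟨m, hm⟩ : p ^ s ∣ n L1 / p ^ e + M' * l0 := by
    rw [← Nat.modEq_zero_iff_dvd]
    refine (Nat.ModEq.add_left _ h8).trans (Nat.modEq_zero_iff_dvd.2 ⟨n L1 / p ^ e, ?_⟩)
    rw [hP]
    ring
  refine ⟨q ^ I * m + c', fun l hl => ?_⟩
  have h9 := hn L1 (l0 + p ^ s * l) (by nlinarith)
  have := h3 (m + l * M') (by
    convert h9 using 1
    rw [← h6]
    linear_combination (Nat.div_add_mod (n L1) (p ^ e)) + p ^ e * hm.symm)
  convert this using 1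
  ring

lemma Lg.cell {M : ℕ} (hM : 0 < M) (h : Lg a M) (K : ℕ) (hK : 0 < K) :
    ∃ y, ∃ c : ZMod M, 1 ≤ y ∧ ∀ j < K, (j : ZMod M) = c → a (K * y + j) := by
  obtain ⟨n, hn⟩ := h (2 * K + 1)
  refine ⟨n / K + 1, n - (K * (n / K + 1) : ℕ), Nat.le_add_left _ _, fun j hj e => ?_⟩
  have h1 := Nat.lt_mul_div_succ n hK
  have h2 := Nat.mul_div_le n K
  obtain ⟨l, hl⟩ := (Nat.modEq_iff_exists_eq_add (show n ≤ K * (n / K + 1) + j by omega)).1
    ((ZMod.natCast_eq_natCast_iff _ _ M).1 (by rw [Nat.cast_add, e]; ring))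
  rw [hl, mul_comm M]
  refine hn l ?_
  rw [mul_add_one] at hl
  nlinarith

lemma cells [Finite S] (hk : 0 < k) (hσ : Aut k σ) (ha : Dz σ a) (hb : Dz σ b) {M M' : ℕ}
    (hM : 0 < M) (hM' : 0 < M') (h1 : Lg a M) (h2 : Lg b M') : ∃ y c y' c', 1 ≤ y ∧ 1 ≤ y' ∧
      ∀ N, ∃ τ, N ≤ τ ∧ (∀ n, k ^ τ * y ≤ n → n < k ^ τ * (y + 1) → n ≡ c [MOD M] → a n) ∧
        ∀ n, k ^ τ * y' ≤ n → n < k ^ τ * (y' + 1) → n ≡ c' [MOD M'] → b n := by
  choose y c h3 h4 using fun τ => h1.cell hM (k ^ τ) (by positivity)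
  choose y' c' h5 h6 using fun τ => h2.cell hM' (k ^ τ) (by positivity)
  have : NeZero M := ⟨hM.ne'⟩
  have : NeZero M' := ⟨hM'.ne'⟩
  obtain ⟨t, ht⟩ := pigeon_inf fun τ => (σ (y τ), σ (y' τ), c τ, c' τ, ((k ^ τ : ℕ) : ZMod M),
    ((k ^ τ : ℕ) : ZMod M'))
  obtain ⟨s, -, hs⟩ := ht 0
  refine ⟨y s, k ^ s * y s + (c s).val, y' s, k ^ s * y' s + (c' s).val, h3 s, h5 s, fun N => ?_⟩
  obtain ⟨τ, h7, h8⟩ := ht N
  have h9 := h8.trans hs.symm
  simp only [Prod.mk.injEq] at h9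
  obtain ⟨a1, a2, a3, a4, a5, a6⟩ := h9
  refine ⟨τ, h7, fun n b1 b2 b3 => ?_, fun n b1 b2 b3 => ?_⟩ <;>
    obtain ⟨j, rfl⟩ := Nat.exists_eq_add_of_le b1 <;> rw [mul_add_one] at b2 <;>
    rw [← ZMod.natCast_eq_natCast_iff, Nat.cast_add, Nat.cast_add, Nat.cast_mul, Nat.cast_mul,
      ZMod.natCast_zmod_val] at b3
  · exact ha.det hσ τ j (by omega) _ _ a1 (h4 τ j (by omega) (by
      rw [a3, ← add_left_cancel_iff, ← b3, a5]))
  · exact hb.det hσ τ j (by omega) _ _ a2 (h6 τ j (by omega) (by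
      rw [a4, ← add_left_cancel_iff, ← b3, a6]))

/-- a branch of an iterate with a given displacement modulo `h` -/
def Tr (a : ℕ → Prop) (h J I : ℕ) (t : ZMod h) : Prop :=
  ∃ c c', Imp a (2 ^ J) c (3 ^ I) c' ∧ (2 ^ J * c' - 3 ^ I * c : ZMod h) = t

lemma Tr.comp {h J I J' I' : ℕ} {t t' : ZMod h} (h1 : Tr a h J I t) (h2 : Tr a h J' I' t') :
    Tr a h (J + J') (I + I') (3 ^ I' * t + 2 ^ J * t') := by
  obtain ⟨c, c', a1, rfl⟩ := h1
  obtain ⟨e, e', a2, rfl⟩ := h2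
  obtain ⟨μ, ν, h3⟩ := solve (U := 2 ^ J') (W := 3 ^ I) (by positivity) (by positivity)
    (Nat.Coprime.pow _ _ (by norm_num)) c' e
  refine ⟨_, _, by rw [pow_add, pow_add]; exact a1.comp a2 h3, ?_⟩
  have := congrArg (Nat.cast : ℕ → ZMod h) h3
  push_cast at this ⊢
  linear_combination -2 ^ J * 3 ^ I' * this

lemma Tr.zero (h : ℕ) : Tr a h 0 0 0 := ⟨0, 0, fun m h => by simpa using h, by simp⟩

lemma tr_all (i1 : Imp a 2 0 3 0) (i2 : Imp a 4 1 3 1) (i3 : Imp a 4 3 3 2) {h φ : ℕ}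
    (hh : 0 < h) (hφ : 0 < φ) (e2 : (2 : ZMod h) ^ φ = 1) (e3 : (3 : ZMod h) ^ φ = 1)
    (t : ZMod h) {n : ℕ} (hn : h ≤ n) (b : ℕ) : Tr a h (φ * (b + 2 * n)) (φ * (b + n)) t := by
  have : NeZero h := ⟨hh.ne'⟩
  have h1 : ∀ j i t j' i' t', Tr a h (φ * j) (φ * i) t → Tr a h (φ * j') (φ * i') t' →
      Tr a h (φ * (j + j')) (φ * (i + i')) (t + t') := by
    intro j i t j' i' t' a1 a2
    have := a1.comp a2
    rwa [pow_mul, pow_mul, e2, e3, one_pow, one_pow, one_mul, one_mul, ← mul_add, ← mul_add] at this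
  have h2 : ∀ j i t, Tr a h (φ * j) (φ * i) t → ∀ n : ℕ,
      Tr a h (φ * (j * n)) (φ * (i * n)) (n * t) := by
    intro j i t a1 n
    induction n with
    | zero => simpa using Tr.zero h
    | succ n ih => simpa [mul_add, add_mul] using h1 _ _ _ _ _ _ ih a1
  have h3 : ∀ n, Tr a h n n 0 := by
    intro n
    induction n with
    | zero => exact Tr.zero h
    | succ n ih => simpa using ih.comp (J' := 1) (I' := 1) (t' := 0) ⟨0, 0, i1, by simp⟩
  have h4 : ∀ n, Tr a h (2 * n) n (3 ^ n - 2 ^ (2 * n)) := by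
    intro n
    induction n with
    | zero => simpa using Tr.zero h
    | succ n ih =>
      convert ih.comp (J' := 2) (I' := 1) (t' := -1) ⟨3, 2, i3, by norm_num⟩ using 1 <;> ring
  obtain ⟨φ, rfl⟩ := Nat.exists_eq_add_of_lt hφ
  rw [zero_add] at *
  have h5 : Tr a h ((φ + 1) * 2) ((φ + 1) * 1) 0 := by
    convert h4 (φ + 1) using 1
    · ring
    · ring
    · rw [pow_mul', e2, e3]
      simp
  have h6 : Tr a h ((φ + 1) * 2) ((φ + 1) * 1) (5 * 3 ^ φ - 1) := by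
    convert Tr.comp (J := 2) (I := 1) (t := 1) ⟨1, 1, i2, by norm_num⟩ (h4 φ) using 1
    · ring
    · ring
    · linear_combination (2 ^ (φ + 1) + 1) * e2
  obtain ⟨d, rfl⟩ := Nat.exists_eq_add_of_le ((t * 3 * 2 ^ φ).val_lt.le.trans hn)
  convert h1 _ _ _ _ _ _ (h3 ((φ + 1) * b)) (h1 _ _ _ _ _ _ (h2 _ _ _ h6 (t * 3 * 2 ^ φ).val)
    (h2 _ _ _ h5 d)) using 1
  · ring
  · ring
  · rw [ZMod.natCast_zmod_val]
    linear_combination -t * e2 - 5 * t * 2 ^ φ * e3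

lemma ratio {φ : ℕ} (hφ : 0 < φ) {α β : ℝ} (hα : 0 < α) (hβ : α < β) (N : ℕ) :
    ∃ n b : ℕ, N ≤ n ∧ α * 2 ^ (φ * (b + 2 * n)) < 3 ^ (φ * (b + n)) ∧
      3 ^ (φ * (b + n)) < β * 2 ^ (φ * (b + 2 * n)) := by
  have h1 : ((3 : ℝ) / 4) ^ φ < 1 := pow_lt_one₀ (by norm_num) (by norm_num) hφ.ne'
  have h2 : (1 : ℝ) < (3 / 2) ^ φ := one_lt_pow₀ (by norm_num) hφ.ne'
  have h3 : ∀ n b : ℕ, (((3 : ℝ) / 4) ^ φ) ^ n * ((3 / 2) ^ φ) ^ b =
      3 ^ (φ * (b + n)) / 2 ^ (φ * (b + 2 * n)) := fun n b => by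
    rw [show (4 : ℝ) = 2 ^ 2 by norm_num]
    simp only [div_pow, ← pow_mul]
    field_simp
    ring
  obtain ⟨N1, h4⟩ := exists_pow_lt_of_lt_one hα h1
  obtain ⟨n, hn, b, h5, h6⟩ := rot (x := ((3 : ℝ) / 4) ^ φ) (by positivity) h2
    (fun s r hs => ⟨((pow_lt_one₀ (by positivity) h1 hs.ne').trans_le (one_le_pow₀ h2.le)).ne,
      fun e => by
        rw [h3, div_eq_one_iff_eq (by positivity)] at e
        have e' : 3 ^ (φ * (r + s)) = 2 ^ (φ * (r + 2 * s)) := by exact_mod_cast e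
        have := Nat.prime_two.dvd_of_dvd_pow (e' ▸ dvd_pow_self 2 (by positivity))
        omega⟩) hα hβ (N + N1)
  obtain ⟨b, rfl⟩ := Int.eq_ofNat_of_zero_le (show 0 ≤ b by
    by_contra hb
    have a1 := zpow_le_one_of_nonpos₀ h2.le (not_le.1 hb).le
    have a2 : (((3 : ℝ) / 4) ^ φ) ^ n ≤ ((3 / 4) ^ φ) ^ N1 :=
      pow_le_pow_of_le_one (by positivity) h1.le (by omega)
    have a3 : 0 < (((3 : ℝ) / 4) ^ φ) ^ n := by positivity
    nlinarith)
  rw [zpow_natCast, h3] at h5 h6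
  exact ⟨n, b, by omega, (lt_div_iff₀ (by positivity)).1 h5, (div_lt_iff₀ (by positivity)).1 h6⟩

theorem conn [Finite S] (hk : 2 ≤ k) (hσ : Aut k σ) (ha : Dz σ a) (i1 : Imp a 2 0 3 0)
    (i2 : Imp a 4 1 3 1) (i3 : Imp a 4 3 3 2) {M M' : ℕ} (hM : 0 < M) (hM' : 0 < M')
    (c2 : M.Coprime 2) (c3 : M'.Coprime 3) (h1 : Lg a M) (h2 : Lg (fun n => ¬ a n) M') :
    False := by
  obtain ⟨y, c, y', c', hy, hy', h3⟩ := cells (b := fun n => ¬ a n) (by omega) hσ ha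
    (fun _ _ e h h' => h (ha _ _ e.symm h')) hM hM' h1 h2
  have hh := Nat.gcd_pos_of_pos_left M' hM
  have d1 := Nat.gcd_dvd_left M M'
  have d2 := Nat.gcd_dvd_right M M'
  have hφ := Nat.totient_pos.2 hh
  have e0 : ∀ x : ℕ, (M.gcd M').Coprime x → (x : ZMod (M.gcd M')) ^ (M.gcd M').totient = 1 :=
    fun x hx => by
      exact_mod_cast (ZMod.natCast_eq_natCast_iff _ _ _).2 (Nat.ModEq.pow_totient hx.symm)
  have e2 := e0 2 (c2.coprime_dvd_left d1)
  have e3 := e0 3 (c3.coprime_dvd_left d2)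
  obtain ⟨n, b, hn, h4, h5⟩ := ratio hφ (α := (y' + 1 / 3) / (y + 1 / 2))
    (β := (y' + 2 / 3) / (y + 1 / 2)) (by positivity) (by gcongr; norm_num) (M.gcd M')
  obtain ⟨d, d', h6, h7⟩ := tr_all i1 i2 i3 hh hφ e2 e3 (c' - c) hn b
  have e4 := congrArg (· ^ (b + 2 * n)) e2
  have e5 := congrArg (· ^ (b + n)) e3
  simp only [← pow_mul, one_pow] at e4 e5
  generalize (M.gcd M').totient * (b + 2 * n) = J at *
  generalize (M.gcd M').totient * (b + n) = I at *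
  obtain ⟨μ, ν, a1⟩ := solve (W := 2 ^ J) hM (by positivity) (c2.pow_right J) d c
  obtain ⟨μ', ν', a2⟩ := solve (W := 3 ^ I) hM' (by positivity) (c3.pow_right I) d' c'
  obtain ⟨m, a3, a4⟩ := Nat.chineseRemainder' (show μ ≡ μ' [MOD M.gcd M'] by
    rw [← ZMod.natCast_eq_natCast_iff]
    have b1 := congrArg (Nat.cast : ℕ → ZMod (M.gcd M')) a1
    have b2 := congrArg (Nat.cast : ℕ → ZMod (M.gcd M')) a2
    push_cast at b1 b2 e4 e5
    rw [(ZMod.natCast_eq_zero_iff _ _).2 d1] at b1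
    rw [(ZMod.natCast_eq_zero_iff _ _).2 d2] at b2
    rw [e4] at b1 h7
    rw [e5] at b2 h7
    linear_combination b1 - b2 + h7)
  obtain ⟨τ, hτ, h8, h9⟩ := h3
    (3 * (2 ^ J * m + d + 2 ^ J * (M * M')) + 3 * (3 ^ I * m + d' + 3 ^ I * (M * M')))
  have hK := hτ.trans (Nat.lt_pow_self hk).le
  generalize k ^ τ = K at *
  have hG : 0 < 2 * (2 ^ J * (M * M')) := by positivity
  have b1 := Nat.mul_div_le (K * (2 * y + 1)) (2 * (2 ^ J * (M * M')))
  have b2 := Nat.lt_mul_div_succ (K * (2 * y + 1)) hG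
  generalize K * (2 * y + 1) / (2 * (2 ^ J * (M * M'))) = z at b1 b2
  have b3 : 2 * (2 ^ J * (M * M')) * z ≤ (K : ℝ) * (2 * y + 1) := by exact_mod_cast b1
  have b4 : (K : ℝ) * (2 * y + 1) < 2 * (2 ^ J * (M * M')) * (z + 1) := by exact_mod_cast b2
  have b5 : 3 * (2 ^ J * m + d + 2 ^ J * (M * M')) + 3 * (3 ^ I * m + d' + 3 ^ I * (M * M')) ≤
      (K : ℝ) := by exact_mod_cast hK
  have b6 : (0 : ℝ) < K := by exact_mod_cast (show 0 < K by omega)
  have p1 : (0 : ℝ) ≤ 2 ^ J * m + d := by positivity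
  have p2 : (0 : ℝ) ≤ 3 ^ I * m + d' := by positivity
  have p3 : (0 : ℝ) ≤ 2 ^ J * (M * M') := by positivity
  have p4 : (0 : ℝ) ≤ 3 ^ I * (M * M') := by positivity
  obtain ⟨f1, f2⟩ := in_block (K := K) (Y := y) (n := 2 ^ J * (m + M * M' * z) + d)
    (x := K * (y + 1 / 2)) (C := 2 ^ J * m + d + 2 ^ J * (M * M')) (by linarith) (by linarith)
    (by rw [abs_le]; push_cast; constructor <;> linarith) (by linarith)
  rw [div_mul_eq_mul_div, div_lt_iff₀ (by positivity)] at h4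
  rw [div_mul_eq_mul_div, lt_div_iff₀ (by positivity)] at h5
  obtain ⟨f3, f4⟩ := in_block (K := K) (Y := y') (n := 3 ^ I * (m + M * M' * z) + d')
    (x := 3 ^ I * (K * (y + 1 / 2)) / 2 ^ J) (C := 3 ^ I * m + d' + 3 ^ I * (M * M'))
    (by rw [lt_div_iff₀ (by positivity)]; nlinarith)
    (by rw [div_lt_iff₀ (by positivity)]; nlinarith)
    (by
      have g1 : (3 : ℝ) ^ I * (M * M' * z) ≤ 3 ^ I * (K * (y + 1 / 2)) / 2 ^ J := by
        rw [mul_div_assoc]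
        gcongr
        rw [le_div_iff₀ (by positivity)]
        linarith
      have g2 : (3 : ℝ) ^ I * (K * (y + 1 / 2)) / 2 ^ J ≤ 3 ^ I * (M * M' * (z + 1)) := by
        rw [mul_div_assoc]
        gcongr
        rw [div_le_iff₀ (by positivity)]
        linarith
      rw [abs_le]
      push_cast
      constructor <;> linarith) (by linarith)
  refine h9 _ f3 f4 ?_ (h6 _ (h8 _ f1 f2 ?_))
  · rw [← ZMod.natCast_eq_natCast_iff] at a4 ⊢
    have := congrArg (Nat.cast : ℕ → ZMod M') a2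
    push_cast at this ⊢
    rw [ZMod.natCast_self] at this ⊢
    linear_combination this + 3 ^ I * a4
  · rw [← ZMod.natCast_eq_natCast_iff] at a3 ⊢
    have := congrArg (Nat.cast : ℕ → ZMod M) a1
    push_cast at this ⊢
    rw [ZMod.natCast_self] at this ⊢
    linear_combination this + 2 ^ J * a3

end Pool.Agent.P.MP_05c0aa_nt
end

-- part Pool.Agent.P.MP_05c0aa_nt.Main
section

/-! An automatic set closed under the map is finite or cofinite. -/

namespace Pool.Agent.P.MP_05c0aa_nt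

variable {S : Type} {k : ℕ} {σ : ℕ → S} {a : ℕ → Prop}

lemma Lg.shift {M : ℕ} (h : Lg (fun n => a (n + 1)) M) : Lg a M := fun L => by
  obtain ⟨n, hn⟩ := h L
  exact ⟨n + 1, fun l hl => by rw [add_right_comm]; exact hn l hl⟩

theorem not_both [Finite S] (hk : 2 ≤ k) (hσ : Aut k σ) (ha : Dz σ a) (i1 : Imp a 2 0 3 0)
    (i2 : Imp a 4 1 3 1) (i3 : Imp a 4 3 3 2) (h1 : ∀ N, ∃ n, N ≤ n ∧ a n)
    (h2 : ∀ N, ∃ n, N ≤ n ∧ ¬ a n) : False := by
  have hb : Dz σ fun n => ¬ a n := fun _ _ e h h' => h (ha _ _ e.symm h')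
  have s1 : Sys 2 3 2 3 a := by
    refine ⟨Nat.prime_two, Nat.prime_three, by norm_num, fun n => ?_, ⟨1, le_rfl, rfl⟩,
      ⟨1, le_rfl, rfl⟩, i1⟩
    rcases (by omega : n % 2 = 0 ∨ n % 4 = 1 ∨ n % 4 = 3) with h | h | h
    · exact ⟨1, 1, 0, le_rfl, one_le_two, le_rfl, by simpa [h] using i1⟩
    · exact ⟨2, 1, 1, one_le_two, le_rfl, le_rfl, by simpa [h] using i2⟩
    · exact ⟨2, 1, 2, one_le_two, le_rfl, le_rfl, by simpa [h] using i3⟩
  have s2 : Sys 3 2 3 2 fun n => ¬ a n := by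
    refine ⟨Nat.prime_three, Nat.prime_two, by norm_num, fun n => ?_, ⟨1, le_rfl, rfl⟩,
      ⟨1, le_rfl, rfl⟩, fun m h h' => h (i1 m h')⟩
    rcases (by omega : n % 3 = 0 ∨ n % 3 = 1 ∨ n % 3 = 2) with h | h | h
    · exact ⟨1, 1, 0, le_rfl, one_le_two, le_rfl, by rw [pow_one, h]; exact fun m h h' => h (i1 m h')⟩
    · exact ⟨1, 2, 1, le_rfl, one_le_two, one_le_two, by
        rw [pow_one, h]; exact fun m h h' => h (i2 m h')⟩
    · exact ⟨1, 2, 3, le_rfl, one_le_two, one_le_two, by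
        rw [pow_one, h]; exact fun m h h' => h (i3 m h')⟩
  have s3 : Sys 2 3 4 3 fun n => a (n + 1) := by
    refine ⟨Nat.prime_two, Nat.prime_three, by norm_num, fun n => ?_, ⟨2, one_le_two, rfl⟩,
      ⟨1, le_rfl, rfl⟩, i2⟩
    rcases (by omega : n % 2 = 1 ∨ n % 4 = 0 ∨ n % 4 = 2) with h | h | h
    · exact ⟨1, 1, 2, le_rfl, one_le_two, le_rfl, by rw [pow_one, h]; exact fun m => i1 (m + 1)⟩
    · exact ⟨2, 1, 0, one_le_two, le_rfl, le_rfl, by rw [show 2 ^ 2 = 4 from rfl, h]; exact i2⟩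
    · exact ⟨2, 1, 1, one_le_two, le_rfl, le_rfl, by rw [show 2 ^ 2 = 4 from rfl, h]; exact i3⟩
  have s4 : Sys 3 2 3 4 fun n => ¬ a (n + 1) := by
    refine ⟨Nat.prime_three, Nat.prime_two, by norm_num, fun n => ?_, ⟨1, le_rfl, rfl⟩,
      ⟨2, one_le_two, rfl⟩, fun m h h' => h (i2 m h')⟩
    rcases (by omega : n % 3 = 0 ∨ n % 3 = 1 ∨ n % 3 = 2) with h | h | h
    · exact ⟨1, 2, 0, le_rfl, one_le_two, one_le_two, by
        rw [pow_one, h]; exact fun m h h' => h (i2 m h')⟩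
    · exact ⟨1, 2, 2, le_rfl, one_le_two, one_le_two, by
        rw [pow_one, h]; exact fun m h h' => h (i3 m h')⟩
    · exact ⟨1, 1, 1, le_rfl, one_le_two, le_rfl, by
        rw [pow_one, h]; exact fun m h h' => h (i1 (m + 1) h')⟩
  have hs : ∀ b : ℕ → Prop, (∀ N, ∃ n, N ≤ n ∧ b n) → ∀ N, ∃ n, N ≤ n ∧ b (n + 1) := by
    intro b h N
    obtain ⟨n, h3, h4⟩ := h (N + 1)
    exact ⟨n - 1, by omega, by rwa [Nat.sub_add_cancel (by omega)]⟩
  have key : (∃ M, 0 < M ∧ Lg a M) ∧ ∃ M, 0 < M ∧ Lg (fun n => ¬ a n) M := by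
    by_cases h3 : 3 ∣ k
    · by_cases h4 : 2 ∣ k
      · exact ⟨s1.long hk hσ ha h1 (Or.inr (Or.inr ⟨h4, h3⟩)),
          s2.long hk hσ hb h2 (Or.inr (Or.inr ⟨h3, h4⟩))⟩
      · have h5 : (4 : ℕ).Coprime k :=
          ((Nat.Prime.coprime_iff_not_dvd Nat.prime_two).2 h4).pow_left 2
        obtain ⟨M, h6, h7⟩ := s3.long hk hσ.pair (fun _ _ e => ha _ _ (congrArg Prod.snd e))
          (hs a h1) (Or.inr (Or.inl ⟨by norm_num, h5⟩))
        obtain ⟨M', h8, h9⟩ := s4.long hk hσ.pair (fun _ _ e => hb _ _ (congrArg Prod.snd e))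
          (hs _ h2) (Or.inl ⟨by norm_num, h5⟩)
        exact ⟨⟨M, h6, h7.shift⟩, M', h8, Lg.shift (a := fun n => ¬ a n) h9⟩
    · have h5 := (Nat.Prime.coprime_iff_not_dvd Nat.prime_three).2 h3
      exact ⟨s1.long hk hσ ha h1 (Or.inl ⟨by norm_num, h5⟩),
        s2.long hk hσ hb h2 (Or.inr (Or.inl ⟨by norm_num, h5⟩))⟩
  obtain ⟨⟨M, h3, h4⟩, M', h5, h6⟩ := key
  obtain ⟨M, h7, h8, h9⟩ := s1.lg_cop h3 h4
  obtain ⟨M', h10, h11, h12⟩ := s2.lg_cop h5 h6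
  exact conn hk hσ ha i1 i2 i3 h7 h10 h8 h11 h9 h12

theorem finite_or (hk : 2 ≤ k) {A : Set ℕ} (hA : Language.IsRegular (Nat.digits k '' A))
    (i1 : Imp (· ∈ A) 2 0 3 0) (i2 : Imp (· ∈ A) 4 1 3 1) (i3 : Imp (· ∈ A) 4 3 3 2) :
    A.Finite ∨ Aᶜ.Finite := by
  obtain ⟨Q, _, M, hM⟩ := hA
  by_contra hn
  rw [not_or] at hn
  refine not_both (σ := fun n => (n = 0, fun s => M.evalFrom s (Nat.digits k n) ∈ M.accept)) hk
    ?_ ?_ i1 i2 i3 (fun N => ?_) fun N => ?_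
  · intro n n' d hd e
    obtain ⟨e1, e2⟩ := Prod.mk.inj e
    rcases Nat.eq_zero_or_pos n with rfl | h
    · rw [show n' = 0 from e1 ▸ rfl]
    · have h' : n' ≠ 0 := fun e => h.ne' (e1.mpr e)
      have h1 : k * n + d ≠ 0 := by positivity
      have h2 : k * n' + d ≠ 0 := by positivity
      refine Prod.ext (by simp only [h1, h2]) (funext fun s => ?_)
      simp only
      rw [add_comm, add_comm (k * n'), Nat.digits_add k hk d n hd (Or.inr h.ne'),
        Nat.digits_add k hk d n' hd (Or.inr h'), DFA.evalFrom_cons, DFA.evalFrom_cons]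
      exact congrFun e2 _
  · have h : ∀ n, n ∈ A ↔ M.evalFrom M.start (Nat.digits k n) ∈ M.accept := fun n => by
      rw [← (Nat.digits.injective k).mem_set_image, ← hM]
      rfl
    intro n n' e
    simp only [h]
    exact (congrFun (Prod.mk.inj e).2 M.start).mp
  · obtain ⟨n, h1, h2⟩ := Set.Infinite.exists_gt hn.1 N
    exact ⟨n, h2.le, h1⟩
  · obtain ⟨n, h1, h2⟩ := Set.Infinite.exists_gt hn.2 N
    exact ⟨n, h2.le, h1⟩

theorem main (k : ℕ) (hk : 2 ≤ k) (f : ℕ → ℕ)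
    (hf : ∀ n, f n = if n % 2 = 0 then 3 * n / 2 else (3 * n + 1) / 4) (A : Set ℕ)
    (hA : Language.IsRegular (Nat.digits k '' A)) (hc : ∀ n ∈ A, f n ∈ A) :
    (A.Finite ∨ Aᶜ.Finite) ∧
      ∀ a ∈ A, ∀ b ∉ A, a ∈ Function.periodicPts f ∨ b ∈ Function.periodicPts f := by
  have h := finite_or hk hA
    (fun m h => by convert hc _ h using 1; rw [hf]; split_ifs <;> omega)
    (fun m h => by convert hc _ h using 1; rw [hf]; split_ifs <;> omega)
    (fun m h => by convert hc _ h using 1; rw [hf]; split_ifs <;> omega)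
  refine ⟨h, fun a ha b hb => h.imp (fun h => ?_) fun h => ?_⟩
  · have h1 : Function.Injective f := fun x y e => by
      rw [hf, hf] at e
      split_ifs at e <;> omega
    obtain ⟨i, j, h2, h3⟩ := h.exists_lt_map_eq_of_forall_mem (f := fun i : ℕ => f^[i] a)
      fun i => by
        induction i with
        | zero => exact ha
        | succ i ih => simpa only [Function.iterate_succ_apply'] using hc _ ih
    obtain ⟨d, rfl⟩ := Nat.exists_eq_add_of_lt h2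
    simp only [add_assoc, Function.iterate_add_apply _ i] at h3
    exact Function.mk_mem_periodicPts (Nat.succ_pos d) (h1.iterate i h3).symm
  · have h1 : ∀ y, ∃ x, f x = y := fun y => by
      rcases (by omega : y % 3 = 0 ∨ y % 3 = 1 ∨ y % 3 = 2) with h | h | h
      · exact ⟨y / 3 * 2, by rw [hf]; split_ifs <;> omega⟩
      · exact ⟨y / 3 * 4 + 1, by rw [hf]; split_ifs <;> omega⟩
      · exact ⟨y / 3 * 4 + 3, by rw [hf]; split_ifs <;> omega⟩
    choose g hg using h1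
    obtain ⟨i, j, h2, h3⟩ := h.exists_lt_map_eq_of_forall_mem (f := fun i : ℕ => g^[i] b)
      fun i => by
        induction i with
        | zero => exact hb
        | succ i ih =>
          rw [Function.iterate_succ_apply']
          exact fun h => ih (by simpa only [hg] using hc _ h)
    obtain ⟨d, rfl⟩ := Nat.exists_eq_add_of_lt h2
    have h4 : ∀ i, f^[i] (g^[i] b) = b := fun i => Function.RightInverse.iterate hg i b
    refine Function.mk_mem_periodicPts (Nat.succ_pos d) ?_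
    have h5 := h4 (i + d + 1)
    rwa [← h3, add_assoc, add_comm, Function.iterate_add_apply, h4] at h5

end Pool.Agent.P.MP_05c0aa_nt
end
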